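import Pool.Agent.J4H7.WL.C

set_option autoImplicit false

/-!
# Waring's problem with the coefficients `1` and `λ`, part D (helper7)

A Diophantine condition, and the joint bound for the two sums.
-/

namespace Pool.Agent.J4H7.WL

open Real Set Filter Topology MeasureTheory
open Pool.Agent.J4H7.WE
open Pool.Agent.Helper153.Vdc (ee ee_norm)

/-- the Diophantine condition -/
def DC (c l : ℝ) : Prop := ∀ (n : ℕ) (a : ℤ), 1 ≤ n → c / (n : ℝ) ^ 2 ≤ |n * l - a|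

/-- almost every coefficient satisfies the Diophantine condition -/
lemma ae_DC : ∀ᵐ l : ℝ, ∃ c : ℝ, 0 < c ∧ DC c l := by
  have hirr : ∀ᵐ l : ℝ, Irrational l := by
    have h : volume (Set.range ((↑) : ℚ → ℝ)) = 0 := (Set.countable_range _).measure_zero volume
    rw [ae_iff]
    have e : {l : ℝ | ¬ Irrational l} = Set.range ((↑) : ℚ → ℝ) := by
      ext l
      simp [Irrational]
    rw [e]
    exact h
  filter_upwards [ae_not_liouvilleWith, hirr] with l hl hi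
  have h3 := hl 3 (by norm_num)
  unfold LiouvilleWith at h3
  push Not at h3
  have h4 := h3 1
  rw [eventually_atTop] at h4
  obtain ⟨n0, hn0⟩ := h4
  have hne : ∀ (n : ℕ) (m : ℤ), 1 ≤ n → (n : ℝ) * l - m ≠ 0 := by
    intro n m hn h
    apply hi
    refine ⟨(m : ℚ) / n, ?_⟩
    have hn' : (n : ℝ) ≠ 0 := by
      have : 0 < n := hn
      exact_mod_cast this.ne'
    push_cast
    rw [div_eq_iff hn']
    linarith
  -- the finitely many first n
  have key : ∀ n1 : ℕ, ∃ c : ℝ, 0 < c ∧ ∀ n : ℕ, 1 ≤ n → n < n1 → ∀ m : ℤ, c ≤ |(n : ℝ) * l - m| := by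
    intro n1
    induction n1 with
    | zero => exact ⟨1, one_pos, fun n _ h => absurd h (Nat.not_lt_zero _)⟩
    | succ n1 ih =>
      obtain ⟨c, hc, h⟩ := ih
      by_cases h1 : 1 ≤ n1
      · refine ⟨min c |(n1 : ℝ) * l - round ((n1 : ℝ) * l)|, lt_min hc (abs_pos.2 (hne n1 _ h1)), ?_⟩
        intro n hn hlt m
        rcases Nat.lt_or_ge n n1 with h2 | h2
        · exact (min_le_left _ _).trans (h n hn h2 m)
        · have : n = n1 := by omega
          subst this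
          exact (min_le_right _ _).trans (round_le _ _)
      · exact ⟨c, hc, fun n hn hlt => by omega⟩
  obtain ⟨c, hc, h5⟩ := key n0
  refine ⟨min c 1, lt_min hc one_pos, ?_⟩
  intro n m hn
  have hn1 : (1 : ℝ) ≤ n := by exact_mod_cast hn
  have hn2 : (1 : ℝ) ≤ (n : ℝ) ^ 2 := one_le_pow₀ hn1
  have hn0' : (0 : ℝ) < n := by linarith
  rcases Nat.lt_or_ge n n0 with h6 | h6
  · calc min c 1 / (n : ℝ) ^ 2 ≤ min c 1 := div_le_self (le_min hc.le zero_le_one) hn2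
      _ ≤ c := min_le_left _ _
      _ ≤ _ := h5 n hn h6 m
  · have h7 := hn0 n h6 m (by
      intro h8
      apply hne n m hn
      rw [h8]
      field_simp
      ring)
    have e1 : (n : ℝ) ^ (3 : ℝ) = (n : ℝ) ^ 3 := by
      rw [show (3 : ℝ) = ((3 : ℕ) : ℝ) by norm_num, Real.rpow_natCast]
    rw [e1] at h7
    have e2 : |(n : ℝ) * l - m| = n * |l - m / n| := by
      rw [← abs_of_pos hn0', ← abs_mul, abs_of_pos hn0']
      congr 1
      field_simp
    rw [e2]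
    calc min c 1 / (n : ℝ) ^ 2 ≤ 1 / (n : ℝ) ^ 2 := by
          gcongr
          exact min_le_right _ _
      _ = n * (1 / (n : ℝ) ^ 3) := by
          field_simp
      _ ≤ _ := mul_le_mul_of_nonneg_left h7 hn0'.le

/-- the weighted sum with the coefficient `l` -/
noncomputable def GLs (k : ℕ) (l : ℝ) (Y M : ℕ) (α : ℝ) : ℂ :=
  ∑ n ∈ Finset.range M, ((ww (l * ((Y : ℝ) + n) ^ (k : ℝ)) : ℝ) : ℂ) * ee (α * (⌊l * ((Y : ℝ) + n) ^ (k : ℝ)⌋₊ : ℝ))

lemma GLs_hasSum (k : ℕ) {l : ℝ} (hl : 0 < l) (Y M : ℕ) {α : ℝ} (hα : |α| ≤ 1 / 2) :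
    HasSum (fun h : ℤ => cf α h * SE (k : ℝ) Y M (l * (h + α))) (GLs k l Y M α) := by
  have h1 : ∀ n ∈ Finset.range M, HasSum (fun h : ℤ => cf α h * ee (l * (h + α) * ((Y : ℝ) + n) ^ (k : ℝ)))
      (((ww (l * ((Y : ℝ) + n) ^ (k : ℝ)) : ℝ) : ℂ) * ee (α * (⌊l * ((Y : ℝ) + n) ^ (k : ℝ)⌋₊ : ℝ))) := by
    intro n _
    set t : ℝ := l * ((Y : ℝ) + n) ^ (k : ℝ) with ht
    have ht0 : 0 ≤ t := mul_nonneg hl.le (Real.rpow_nonneg (by positivity) _)
    have h2 := (fourier_ww hα t).mul_right (ee (α * t))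
    have e1 : (ww t : ℂ) * ee (-(α * Int.fract t)) * ee (α * t) = (ww t : ℂ) * ee (α * (⌊t⌋₊ : ℝ)) := by
      rw [mul_assoc, ← ee_add]
      congr 2
      have : (⌊t⌋₊ : ℝ) = (⌊t⌋ : ℝ) := natCast_floor_eq_intCast_floor ht0
      rw [this, Int.fract]
      ring
    rw [e1] at h2
    refine h2.congr_fun ?_
    intro h
    rw [mul_assoc (cf α h), ← ee_add]
    congr 2
    rw [ht]
    ring
  have h3 := hasSum_sum h1
  have e2 : (fun h : ℤ => ∑ n ∈ Finset.range M, cf α h * ee (l * (h + α) * ((Y : ℝ) + n) ^ (k : ℝ))) =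
      fun h : ℤ => cf α h * SE (k : ℝ) Y M (l * (h + α)) := by
    funext h
    unfold SE
    rw [Finset.mul_sum]
  rw [e2] at h3
  exact h3

lemma GLs_triv (k : ℕ) (l : ℝ) (Y M : ℕ) (α : ℝ) : ‖GLs k l Y M α‖ ≤ M := by
  unfold GLs
  refine (norm_sum_le _ _).trans ?_
  calc ∑ n ∈ Finset.range M, ‖((ww (l * ((Y : ℝ) + n) ^ (k : ℝ)) : ℝ) : ℂ) * ee (α * (⌊l * ((Y : ℝ) + n) ^ (k : ℝ)⌋₊ : ℝ))‖
      ≤ ∑ _n ∈ Finset.range M, (1 : ℝ) := by
        refine Finset.sum_le_sum fun n _ => ?_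
        rw [norm_mul, ee_norm', mul_one, Complex.norm_real, Real.norm_of_nonneg (ww_nonneg _)]
        exact ww_le _
    _ = M := by simp

/-- the two approximations are incompatible -/
lemma incompat {k : ℕ} (hk : 2 ≤ k) {l c X α : ℝ} (hl : 0 < l) (hc : 0 < c) (hd : DC c l)
    (hX : 4 ≤ X) (hbig : 9 * (1 + l) * X ^ (-(k : ℝ) + 8 * (1 / 20)) < c) (hα : |α| ≤ 1 / 2)
    (hα1 : X ^ (-(k : ℝ) + 1 / 20) < |α|)
    {q q' : ℕ} {a a' h : ℤ} (hq : 1 ≤ q) (hqX : (q : ℝ) ≤ X ^ (1 / 20 : ℝ)) (hqa : |q * α - a| ≤ X ^ (-(k : ℝ) + 1 / 20))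
    (hq' : 1 ≤ q') (hqX' : (q' : ℝ) ≤ X ^ (1 / 20 : ℝ)) (hqa' : |q' * (l * (h + α)) - a'| ≤ X ^ (-(k : ℝ) + 1 / 20))
    (hh : |(h : ℝ)| ≤ X ^ (1 / 20 : ℝ)) : False := by
  have hX0 : 0 < X := by linarith
  have hk' : (2 : ℝ) ≤ k := by exact_mod_cast hk
  set P : ℝ := X ^ (1 / 20 : ℝ) with hP
  set E : ℝ := X ^ (-(k : ℝ) + 1 / 20) with hE
  have hP1 : 1 ≤ P := Real.one_le_rpow (by linarith) (by norm_num)
  have hE0 : 0 < E := Real.rpow_pos_of_pos hX0 _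
  have hE1 : E ≤ 1 / 4 := by
    have h1 : E ≤ X ^ (-(1 : ℝ)) := Real.rpow_le_rpow_of_exponent_le (by linarith) (by linarith)
    rw [Real.rpow_neg_one] at h1
    have h2 : X⁻¹ ≤ (4 : ℝ)⁻¹ := inv_anti₀ (by norm_num) hX
    norm_num at h2 ⊢
    linarith
  have hq1 : (1 : ℝ) ≤ q := by exact_mod_cast hq
  have hq1' : (1 : ℝ) ≤ q' := by exact_mod_cast hq'
  have ha : |(a : ℝ)| ≤ 2 * P := by
    have h1 : |(a : ℝ)| ≤ |q * α| + |q * α - a| := by
      have := abs_sub_abs_le_abs_sub (a : ℝ) (q * α)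
      rw [abs_sub_comm (a : ℝ)] at this
      linarith
    have h2 : |q * α| ≤ P * (1 / 2) := by
      rw [abs_mul, abs_of_nonneg (by linarith : (0 : ℝ) ≤ q)]
      exact mul_le_mul hqX hα (abs_nonneg _) (by linarith)
    linarith
  set B : ℤ := (q' : ℤ) * ((q : ℤ) * h + a) with hB
  by_cases hB0 : (q : ℤ) * h + a = 0
  · -- then h = 0
    have e1 : (q : ℝ) * (h + α) = q * α - a := by
      have : ((q : ℤ) * h + a : ℤ) = 0 := hB0
      have h2 : ((q : ℝ) * h + a) = 0 := by exact_mod_cast this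
      linarith
    have h1 : |(h : ℝ) + α| ≤ E := by
      have h2 : |(q : ℝ) * (h + α)| ≤ E := by
        rw [e1]
        exact hqa
      rw [abs_mul, abs_of_nonneg (by linarith : (0 : ℝ) ≤ q)] at h2
      have := abs_nonneg ((h : ℝ) + α)
      nlinarith
    by_cases hh0 : h = 0
    · subst hh0
      simp only [Int.cast_zero, zero_add] at h1
      linarith
    · have h2 : (1 : ℝ) ≤ |(h : ℝ)| := by
        have : (1 : ℤ) ≤ |h| := Int.one_le_abs hh0
        exact_mod_cast this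
      have h3 : 1 / 2 ≤ |(h : ℝ) + α| := by
        have := abs_sub_abs_le_abs_sub (h : ℝ) (-α)
        rw [abs_neg, sub_neg_eq_add] at this
        linarith
      linarith
  · have hBne : B ≠ 0 := mul_ne_zero (by omega) hB0
    set n : ℕ := B.natAbs with hn
    have hn1 : 1 ≤ n := Int.natAbs_pos.2 hBne
    have hnB : (n : ℝ) = |(B : ℝ)| := by
      rw [hn, Nat.cast_natAbs, Int.cast_abs]
    have hBle : |(B : ℝ)| ≤ 3 * P ^ 3 := by
      rw [hB]
      push_cast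
      rw [abs_mul, abs_of_nonneg (by linarith : (0 : ℝ) ≤ q')]
      have h1 : |(q : ℝ) * h + a| ≤ P * P + 2 * P := by
        refine (abs_add_le _ _).trans ?_
        rw [abs_mul, abs_of_nonneg (by linarith : (0 : ℝ) ≤ q)]
        exact add_le_add (mul_le_mul hqX hh (abs_nonneg _) (by linarith)) ha
      calc (q' : ℝ) * |(q : ℝ) * h + a| ≤ P * (P * P + 2 * P) := mul_le_mul hqX' h1 (abs_nonneg _) (by linarith)
        _ ≤ 3 * P ^ 3 := by nlinarith [mul_nonneg (show (0 : ℝ) ≤ P by linarith) (show (0 : ℝ) ≤ P by linarith)]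
    -- the small linear form
    have hform : |(B : ℝ) * l - ((q : ℤ) * a' : ℤ)| ≤ (1 + l) * (P * E) := by
      have e1 : (B : ℝ) * l - ((q : ℤ) * a' : ℤ) = q * (q' * (l * (h + α)) - a') - q' * l * (q * α - a) := by
        rw [hB]
        push_cast
        ring
      rw [e1]
      refine (abs_sub _ _).trans ?_
      rw [abs_mul, abs_mul, abs_mul, abs_of_nonneg (by linarith : (0 : ℝ) ≤ q), abs_of_nonneg (by linarith : (0 : ℝ) ≤ q'),
        abs_of_pos hl]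
      have h1 : (q : ℝ) * |q' * (l * (h + α)) - a'| ≤ P * E := mul_le_mul hqX hqa' (abs_nonneg _) (by linarith)
      have h2 : (q' : ℝ) * l * |q * α - a| ≤ P * l * E :=
        mul_le_mul (mul_le_mul_of_nonneg_right hqX' hl.le) hqa (abs_nonneg _) (by positivity)
      calc _ ≤ P * E + P * l * E := add_le_add h1 h2
        _ = _ := by ring
    -- lower bound
    have hlow : c / (n : ℝ) ^ 2 ≤ |(B : ℝ) * l - ((q : ℤ) * a' : ℤ)| := by
      rcases le_total 0 B with hpos | hneg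
      · have h1 := hd n ((q : ℤ) * a') hn1
        have : (n : ℝ) = B := by
          rw [hnB, abs_of_nonneg (by exact_mod_cast hpos)]
        rw [this] at h1 ⊢
        exact h1
      · have h1 := hd n (-((q : ℤ) * a')) hn1
        have h2 : (n : ℝ) = -B := by
          rw [hnB, abs_of_nonpos (by exact_mod_cast hneg)]
        have h3 : |(B : ℝ) * l - ((q : ℤ) * a' : ℤ)| = |(n : ℝ) * l - ((-((q : ℤ) * a') : ℤ) : ℝ)| := by
          rw [h2, ← abs_neg]
          congr 1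
          push_cast
          ring
        rw [h3]
        exact h1
    have hn0 : (0 : ℝ) < n := by exact_mod_cast hn1
    have h4 : c ≤ (1 + l) * (P * E) * (n : ℝ) ^ 2 := by
      have := hlow.trans hform
      rwa [div_le_iff₀ (by positivity)] at this
    have h5 : (n : ℝ) ^ 2 ≤ 9 * P ^ 6 := by
      rw [hnB]
      calc |(B : ℝ)| ^ 2 ≤ (3 * P ^ 3) ^ 2 := pow_le_pow_left₀ (abs_nonneg _) hBle 2
        _ = _ := by ring
    have h6 : P ^ 7 * E ≤ X ^ (-(k : ℝ) + 8 * (1 / 20)) := by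
      rw [hP, hE, ← Real.rpow_natCast, ← Real.rpow_mul hX0.le, ← Real.rpow_add hX0]
      apply Real.rpow_le_rpow_of_exponent_le (by linarith)
      push_cast
      linarith
    have h7 : c ≤ 9 * (1 + l) * X ^ (-(k : ℝ) + 8 * (1 / 20)) := by
      calc c ≤ (1 + l) * (P * E) * (n : ℝ) ^ 2 := h4
        _ ≤ (1 + l) * (P * E) * (9 * P ^ 6) := mul_le_mul_of_nonneg_left h5 (by positivity)
        _ = 9 * (1 + l) * (P ^ 7 * E) := by ring
        _ ≤ _ := mul_le_mul_of_nonneg_left h6 (by positivity)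
    linarith

/-- **the joint bound** -/
theorem joint {k : ℕ} (hk : 2 ≤ k) {l c : ℝ} (hl : 0 < l) (hc : 0 < c) (hd : DC c l) {η : ℝ} (hη : 0 < η) (hη1 : η < 1 / 2) :
    ∃ σ : ℝ, 0 < σ ∧ σ ≤ 1 ∧ ∃ C : ℝ, 1 ≤ C ∧ ∃ X0 : ℝ, 4 ≤ X0 ∧ ∀ X : ℝ, X0 ≤ X → ∀ α : ℝ, |α| ≤ 1 / 2 →
      X ^ (2 * η) ≤ |α| * X ^ (k : ℝ) → ∀ Y M Y' M' : ℕ, 4 * X ≤ Y → (Y : ℝ) + M ≤ 64 * X + 1 → (M' : ℝ) ≤ 65 * X →
        ‖SE (k : ℝ) Y M α‖ * ‖GLs k l Y' M' α‖ ≤ C * X ^ (2 - σ) := by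
  have hk' : (2 : ℝ) ≤ k := by exact_mod_cast hk
  obtain ⟨σ1, h1, h1', X1, hX1, H1⟩ := SE_inv k (by omega) (ν := 1 / 20) (by norm_num)
  obtain ⟨σ2, h2, h2', C2, hC2, X2, hX2, H2⟩ := SE_two hk' (η := min η (1 / 4)) (lt_min hη (by norm_num))
    (lt_of_le_of_lt (min_le_right _ _) (by norm_num))
  set σ : ℝ := min (min σ1 σ2) (1 / 20) with hσ
  have hσ0 : 0 < σ := lt_min (lt_min h1 h2) (by norm_num)
  have hσ1 : σ ≤ σ1 := (min_le_left _ _).trans (min_le_left _ _)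
  have hσ2 : σ ≤ σ2 := (min_le_left _ _).trans (min_le_right _ _)
  have hσ3 : σ ≤ 1 / 20 := min_le_right _ _
  have hS := sum_dec
  set S : ℝ := ∑' n : ℤ, 8 / (1 + |(n : ℝ)|) ^ 2 with hSd
  have hS0 : 0 ≤ S := tsum_nonneg fun n => by positivity
  obtain ⟨X3, hX3⟩ := eventually_atTop.1 ((tendsto_rpow_atTop (show 0 < (k : ℝ) - 8 * (1 / 20) by linarith)).eventually_gt_atTop
    (9 * (1 + l) / c))
  refine ⟨σ, hσ0, by linarith, 65 * C2 + 65 * (S * 65) + 65, ?_, max (max X1 X2) (max X3 4),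
    (le_max_right _ _).trans (le_max_right _ _), ?_⟩
  · nlinarith
  intro X hX α hα hα2 Y M Y' M' hY hM hM'
  have g1 : X1 ≤ X := (le_max_left _ _).trans ((le_max_left _ _).trans hX)
  have g2 : X2 ≤ X := (le_max_right _ _).trans ((le_max_left _ _).trans hX)
  have g3 : X3 ≤ X := (le_max_left _ _).trans ((le_max_right _ _).trans hX)
  have hX4 : 4 ≤ X := (le_max_right _ _).trans ((le_max_right _ _).trans hX)
  have hX0 : 0 < X := by linarith
  have hXk : 0 < X ^ (k : ℝ) := Real.rpow_pos_of_pos hX0 _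
  have hM65 : (M : ℝ) ≤ 65 * X := by
    have : (0 : ℝ) ≤ Y := by positivity
    linarith
  have hG := GLs_triv k l Y' M' α
  have e2s : X * X ^ (1 - σ) = X ^ (2 - σ) := by
    rw [mul_comm, ← Real.rpow_add_one hX0.ne']
    congr 1
    ring
  have hP2 : 0 < X ^ (2 - σ) := Real.rpow_pos_of_pos hX0 _
  have hmono : ∀ s : ℝ, σ ≤ s → X ^ (1 - s) ≤ X ^ (1 - σ) := fun s hs =>
    Real.rpow_le_rpow_of_exponent_le (by linarith) (by linarith)
  have hSE1 : ∀ B : ℝ, 0 ≤ B → ‖SE (k : ℝ) Y M α‖ ≤ B * X ^ (1 - σ) →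
      ‖SE (k : ℝ) Y M α‖ * ‖GLs k l Y' M' α‖ ≤ 65 * B * X ^ (2 - σ) := by
    intro B hB hh
    calc ‖SE (k : ℝ) Y M α‖ * ‖GLs k l Y' M' α‖ ≤ (B * X ^ (1 - σ)) * (65 * X) :=
          mul_le_mul hh (hG.trans hM') (norm_nonneg _) (mul_nonneg hB (Real.rpow_nonneg hX0.le _))
      _ = 65 * B * (X * X ^ (1 - σ)) := by ring
      _ = _ := by rw [e2s]
  rcases le_or_gt (|α| * X ^ (k : ℝ)) (X ^ (1 / 20 : ℝ)) with hA | hA
  · -- small α
    have h3 := H2 X g2 α (le_trans (Real.rpow_le_rpow_of_exponent_le (by linarith) (by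
        have := min_le_left η (1 / 4); linarith)) hα2) (hA.trans (Real.rpow_le_rpow_of_exponent_le (by linarith) (by
        have := min_le_right η (1 / 4); linarith))) Y M hY hM
    have h4 : ‖SE (k : ℝ) Y M α‖ ≤ C2 * X ^ (1 - σ) :=
      h3.trans (mul_le_mul_of_nonneg_left (hmono _ hσ2) (by linarith))
    refine (hSE1 C2 (by linarith) h4).trans ?_
    apply mul_le_mul_of_nonneg_right _ hP2.le
    nlinarith
  · rcases lt_or_ge ‖SE (k : ℝ) Y M α‖ (X ^ (1 - σ1)) with hB | hB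
    · refine (hSE1 1 zero_le_one ?_).trans ?_
      · rw [one_mul]
        exact hB.le.trans (hmono _ hσ1)
      · apply mul_le_mul_of_nonneg_right _ hP2.le
        nlinarith
    · obtain ⟨q, hq, hqX, a, ha⟩ := H1 X g1 α Y M hM65 hB
      have hα1 : X ^ (-(k : ℝ) + 1 / 20) < |α| := by
        rw [Real.rpow_add hX0, Real.rpow_neg hX0.le, inv_mul_lt_iff₀ hXk]
        linarith
      have hbig : 9 * (1 + l) * X ^ (-(k : ℝ) + 8 * (1 / 20)) < c := by
        have h3 := hX3 X g3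
        have e1 : X ^ (-(k : ℝ) + 8 * (1 / 20)) = (X ^ ((k : ℝ) - 8 * (1 / 20)))⁻¹ := by
          rw [← Real.rpow_neg hX0.le]
          congr 1
          ring
        have h4 : 0 < X ^ ((k : ℝ) - 8 * (1 / 20)) := Real.rpow_pos_of_pos hX0 _
        rw [e1, ← div_eq_mul_inv, div_lt_iff₀ h4]
        rw [div_lt_iff₀ hc] at h3
        linarith
      have hlarge : ∀ h : ℤ, |(h : ℝ)| ≤ X ^ (1 / 20 : ℝ) → ‖SE (k : ℝ) Y' M' (l * (h + α))‖ < X ^ (1 - σ1) := by
        intro h hh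
        by_contra hcon
        push Not at hcon
        obtain ⟨q', hq', hqX', a', ha'⟩ := H1 X g1 (l * (h + α)) Y' M' hM' hcon
        exact incompat hk hl hc hd hX4 hbig hα hα1 hq hqX ha hq' hqX' ha' hh
      -- each term
      have hterm : ∀ h : ℤ, ‖cf α h * SE (k : ℝ) Y' M' (l * (h + α))‖ ≤ 8 / (1 + |(h : ℝ)|) ^ 2 * (65 * X ^ (1 - σ)) := by
        intro h
        have hh0 := abs_nonneg (h : ℝ)
        have hPp : 0 < X ^ (1 - σ) := Real.rpow_pos_of_pos hX0 _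
        have hSE : ‖SE (k : ℝ) Y' M' (l * (h + α))‖ ≤ (1 + |(h : ℝ)|) * (65 * X ^ (1 - σ)) := by
          rcases le_or_gt |(h : ℝ)| (X ^ (1 / 20 : ℝ)) with hle | hgt
          · have := (hlarge h hle).le.trans (hmono _ hσ1)
            nlinarith
          · calc ‖SE (k : ℝ) Y' M' (l * (h + α))‖ ≤ M' := SE_triv _ _ _ _
              _ ≤ 65 * X := hM'
              _ = 65 * (X ^ (1 / 20 : ℝ) * X ^ (1 - 1 / 20 : ℝ)) := by
                rw [← Real.rpow_add hX0]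
                norm_num
              _ ≤ 65 * (|(h : ℝ)| * X ^ (1 - σ)) := by
                apply mul_le_mul_of_nonneg_left _ (by norm_num)
                exact mul_le_mul hgt.le (hmono _ hσ3) (Real.rpow_nonneg hX0.le _) hh0
              _ ≤ _ := by nlinarith
        rw [norm_mul]
        calc ‖cf α h‖ * ‖SE (k : ℝ) Y' M' (l * (h + α))‖ ≤ 8 / (1 + |(h : ℝ)|) ^ 3 * ((1 + |(h : ℝ)|) * (65 * X ^ (1 - σ))) :=
              mul_le_mul (cf_bound hα h) hSE (norm_nonneg _) (by positivity)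
          _ = _ := by
            field_simp
      have hGs := GLs_hasSum k hl Y' M' hα
      have hsum : Summable fun h : ℤ => 8 / (1 + |(h : ℝ)|) ^ 2 * (65 * X ^ (1 - σ)) := hS.mul_right _
      have hGb : ‖GLs k l Y' M' α‖ ≤ S * (65 * X ^ (1 - σ)) := by
        calc ‖GLs k l Y' M' α‖ = ‖∑' h : ℤ, cf α h * SE (k : ℝ) Y' M' (l * (h + α))‖ := by rw [hGs.tsum_eq]
          _ ≤ ∑' h : ℤ, 8 / (1 + |(h : ℝ)|) ^ 2 * (65 * X ^ (1 - σ)) := tsum_of_norm_bounded hsum.hasSum hterm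
          _ = S * (65 * X ^ (1 - σ)) := by rw [tsum_mul_right]
      have hSEt : ‖SE (k : ℝ) Y M α‖ ≤ 65 * X := (SE_triv _ _ _ _).trans hM65
      calc ‖SE (k : ℝ) Y M α‖ * ‖GLs k l Y' M' α‖ ≤ (65 * X) * (S * (65 * X ^ (1 - σ))) :=
            mul_le_mul hSEt hGb (norm_nonneg _) (by linarith)
        _ = 65 * (S * 65) * (X * X ^ (1 - σ)) := by ring
        _ = 65 * (S * 65) * X ^ (2 - σ) := by rw [e2s]
        _ ≤ _ := by
            apply mul_le_mul_of_nonneg_right _ hP2.le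
            nlinarith

/-- the sum over a range at the coefficient itself -/
lemma SE_self {k : ℕ} (hk : 2 ≤ k) {l c : ℝ} (hc : 0 < c) (hd : DC c l) :
    ∃ σ : ℝ, 0 < σ ∧ σ ≤ 1 ∧ ∃ X0 : ℝ, 2 ≤ X0 ∧ ∀ X : ℝ, X0 ≤ X → ∀ Y M : ℕ, (M : ℝ) ≤ 65 * X →
      ‖SE (k : ℝ) Y M l‖ ≤ X ^ (1 - σ) := by
  have hk' : (2 : ℝ) ≤ k := by exact_mod_cast hk
  obtain ⟨σ, h1, h1', X1, hX1, H1⟩ := SE_inv k (by omega) (ν := 1 / 20) (by norm_num)
  obtain ⟨X3, hX3⟩ := eventually_atTop.1 ((tendsto_rpow_atTop (show 0 < (k : ℝ) - 3 * (1 / 20) by linarith)).eventually_gt_atTop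
    (1 / c))
  refine ⟨σ, h1, h1', max X1 X3, hX1.trans (le_max_left _ _), ?_⟩
  intro X hX Y M hM
  have g1 : X1 ≤ X := (le_max_left _ _).trans hX
  have g3 := hX3 X ((le_max_right _ _).trans hX)
  have hX2 : 2 ≤ X := hX1.trans g1
  have hX0 : 0 < X := by linarith
  by_contra hcon
  push Not at hcon
  obtain ⟨q, hq, hqX, a, ha⟩ := H1 X g1 l Y M hM hcon.le
  have hq1 : (1 : ℝ) ≤ q := by exact_mod_cast hq
  have h2 := (hd q a hq).trans ha
  rw [div_le_iff₀ (by positivity)] at h2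
  have h3 : (q : ℝ) ^ 2 ≤ X ^ (2 * (1 / 20) : ℝ) := by
    rw [mul_comm, Real.rpow_mul hX0.le, show (2 : ℝ) = ((2 : ℕ) : ℝ) by norm_num, Real.rpow_natCast]
    exact pow_le_pow_left₀ (by linarith) hqX 2
  have h4 : c ≤ X ^ (-(k : ℝ) + 3 * (1 / 20)) := by
    calc c ≤ X ^ (-(k : ℝ) + 1 / 20) * (q : ℝ) ^ 2 := h2
      _ ≤ X ^ (-(k : ℝ) + 1 / 20) * X ^ (2 * (1 / 20) : ℝ) := mul_le_mul_of_nonneg_left h3 (Real.rpow_nonneg hX0.le _)
      _ = _ := by
        rw [← Real.rpow_add hX0]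
        congr 1
        ring
  have h5 : X ^ (-(k : ℝ) + 3 * (1 / 20)) = (X ^ ((k : ℝ) - 3 * (1 / 20)))⁻¹ := by
    rw [← Real.rpow_neg hX0.le]
    congr 1
    ring
  have h6 : 0 < X ^ ((k : ℝ) - 3 * (1 / 20)) := Real.rpow_pos_of_pos hX0 _
  rw [h5, ← one_div, le_div_iff₀ h6] at h4
  rw [div_lt_iff₀ hc] at g3
  linarith

end Pool.Agent.J4H7.WL
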