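import Pool.Agent.J4H7.WE.A5

set_option autoImplicit false

/-!
# Waring's problem with the coefficients `1` and `λ`, part A (helper7)

Metric part: the number of coincidences for almost every coefficient.
-/

namespace Pool.Agent.J4H7.WL

open Real Set MeasureTheory Filter Topology Asymptotics
open Pool.Agent.J4H7.WE

/-- the coefficient of level `i` -/
noncomputable def co (l : ℝ) (i : ℕ) : ℝ := if Even i then 1 else l

/-- the form -/
noncomputable def FL (k : ℕ) {m : ℕ} (p : Fin m → ℕ × ℕ) (l : ℝ) : ℝ :=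
  ∑ i : Fin m, co l i * (((p i).1 : ℝ) ^ k - ((p i).2 : ℝ) ^ k)

/-- the even part -/
noncomputable def PL (k : ℕ) {m : ℕ} (p : Fin m → ℕ × ℕ) : ℝ :=
  ∑ i : Fin m, if Even (i : ℕ) then (((p i).1 : ℝ) ^ k - ((p i).2 : ℝ) ^ k) else 0

/-- the odd part -/
noncomputable def QL (k : ℕ) {m : ℕ} (p : Fin m → ℕ × ℕ) : ℝ :=
  ∑ i : Fin m, if Even (i : ℕ) then 0 else (((p i).1 : ℝ) ^ k - ((p i).2 : ℝ) ^ k)

lemma FL_eq (k : ℕ) {m : ℕ} (p : Fin m → ℕ × ℕ) (l : ℝ) : FL k p l = PL k p + l * QL k p := by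
  unfold FL PL QL co
  rw [Finset.mul_sum, ← Finset.sum_add_distrib]
  refine Finset.sum_congr rfl fun i _ => ?_
  split_ifs <;> ring

lemma FL_deriv (k : ℕ) {m : ℕ} (p : Fin m → ℕ × ℕ) (l : ℝ) : HasDerivAt (FL k p) (QL k p) l := by
  have h : FL k p = fun l => PL k p + l * QL k p := funext (FL_eq k p)
  rw [h]
  simpa using ((hasDerivAt_id l).mul_const (QL k p)).const_add (PL k p)

/-- the size condition -/
def CD (q : ℝ) (k : ℕ) (t : ℝ) (m : ℕ) (u : ℝ) : Prop :=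
  m * (2 ^ k * u ^ (q ^ 2 * k)) + t ≤ 1 / 2 * u ^ ((k : ℝ) - 1)

lemma ev_CD {q t : ℝ} {k m : ℕ} (hk : 2 ≤ k) (h : q ^ 2 * k < (k : ℝ) - 1) :
    ∀ᶠ u : ℝ in atTop, CD q k t m u := by
  have hk' : (2 : ℝ) ≤ k := by exact_mod_cast hk
  have h2 : ∀ᶠ u : ℝ in atTop, 0 * Real.log u + t ≤ 1 / 4 * u ^ ((k : ℝ) - 1) := ev_log (by linarith) _ _ (by norm_num)
  have hm : (0 : ℝ) < m * 2 ^ k + 1 := by positivity
  have h3 : ∀ᶠ u : ℝ in atTop, 0 * Real.log u + (m * 2 ^ k + 1) ≤ 1 / 4 * u ^ ((k : ℝ) - 1 - q ^ 2 * k) :=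
    ev_log (by linarith) _ _ (by positivity)
  filter_upwards [h2, h3, eventually_ge_atTop 1] with u g2 g3 g4
  have hu0 : (0 : ℝ) < u := by linarith
  have e1 : u ^ ((k : ℝ) - 1 - q ^ 2 * k) * u ^ (q ^ 2 * k) = u ^ ((k : ℝ) - 1) := by
    rw [← Real.rpow_add hu0]
    congr 1
    ring
  have hP : 0 < u ^ (q ^ 2 * k) := Real.rpow_pos_of_pos hu0 _
  have g5 : (m : ℝ) * (2 ^ k * u ^ (q ^ 2 * k)) ≤ 1 / 4 * u ^ ((k : ℝ) - 1) := by
    calc (m : ℝ) * (2 ^ k * u ^ (q ^ 2 * k)) = (m * 2 ^ k) * u ^ (q ^ 2 * k) := by ring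
      _ ≤ (1 / 4 * u ^ ((k : ℝ) - 1 - q ^ 2 * k)) * u ^ (q ^ 2 * k) := by
        apply mul_le_mul_of_nonneg_right _ hP.le
        linarith
      _ = 1 / 4 * (u ^ ((k : ℝ) - 1 - q ^ 2 * k) * u ^ (q ^ 2 * k)) := by ring
      _ = _ := by rw [e1]
  unfold CD
  linarith

lemma small_term {q X : ℝ} {k : ℕ} (hq : 0 < q) (hq1 : q < 1) (hX : 1 ≤ X) {i0 i : ℕ}
    (hi : i0 + 2 ≤ i) {x y : ℕ} (hx : x ∈ SS q X i) (hy : y ∈ SS q X i) :
    |(x : ℝ) ^ k - (y : ℝ) ^ k| ≤ 2 ^ k * (lev q X i0) ^ (q ^ 2 * k) := by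
  set u := lev q X i0 with hu
  have hu1 : 1 ≤ u := one_le_lev hq.le hX _
  have hlu2 : lev q X i ≤ u ^ (q ^ 2) := by
    rw [hu, ← lev_add hX]
    exact lev_anti hq hq1 hX hi
  have key : ∀ z : ℕ, z ∈ SS q X i → 0 ≤ (z : ℝ) ^ k ∧ (z : ℝ) ^ k ≤ 2 ^ k * u ^ (q ^ 2 * k) := by
    intro z hz
    rw [mem_SS hX] at hz
    refine ⟨by positivity, ?_⟩
    calc (z : ℝ) ^ k ≤ (2 * u ^ (q ^ 2)) ^ k := pow_le_pow_left₀ (by positivity) (by linarith [hz.2]) k
      _ = 2 ^ k * u ^ (q ^ 2 * k) := by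
        rw [mul_pow, ← Real.rpow_natCast (u ^ (q ^ 2)) k, ← Real.rpow_mul (by linarith)]
  obtain ⟨hx0, hx1⟩ := key x hx
  obtain ⟨hy0, hy1⟩ := key y hy
  rw [abs_le]
  constructor <;> linarith

/-- the bound for a sum with first term `i0` -/
lemma part_lower {q X : ℝ} {k m : ℕ} (hq : 0 < q) (hq1 : q < 1) (hX : 1 ≤ X) (p : Fin m → ℕ × ℕ)
    (hp : ∀ i : Fin m, (p i).1 ∈ SS q X i ∧ (p i).2 ∈ SS q X i) (i0 : Fin m)
    (h0 : ∀ i, i < i0 → (p i).1 = (p i).2) (c : Fin m → ℝ) (hc0 : ∀ i, 0 ≤ c i ∧ c i ≤ 1) (hc1 : c i0 = 1)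
    (hc2 : ∀ i : Fin m, (i : ℕ) = i0 + 1 → c i = 0) :
    (((p i0).1 : ℝ) ^ k - ((p i0).2 : ℝ) ^ k) - m * (2 ^ k * (lev q X i0) ^ (q ^ 2 * k)) ≤
      ∑ i : Fin m, c i * (((p i).1 : ℝ) ^ k - ((p i).2 : ℝ) ^ k) := by
  set e : ℝ := 2 ^ k * (lev q X i0) ^ (q ^ 2 * k) with he
  have he0 : 0 ≤ e := by
    have := lev_pos (q := q) hX (i0 : ℕ)
    positivity
  have t1 : ∀ i : Fin m, (if i = i0 then (((p i0).1 : ℝ) ^ k - ((p i0).2 : ℝ) ^ k) else 0) - e ≤
      c i * (((p i).1 : ℝ) ^ k - ((p i).2 : ℝ) ^ k) := by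
    intro i
    rcases lt_trichotomy i i0 with hi | hi | hi
    · rw [if_neg (ne_of_lt hi)]
      have : (p i).1 = (p i).2 := h0 i hi
      simp only [this, sub_self, mul_zero]
      linarith
    · subst hi
      rw [if_pos rfl, hc1]
      linarith
    · rw [if_neg (ne_of_gt hi)]
      have hi' : (i0 : ℕ) < i := hi
      rcases Nat.lt_or_ge (i : ℕ) (i0 + 2) with h3 | h3
      · rw [hc2 i (by omega), zero_mul]
        linarith
      · have h4 := small_term (k := k) hq hq1 hX h3 (hp i).1 (hp i).2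
        have h5 : |c i * (((p i).1 : ℝ) ^ k - ((p i).2 : ℝ) ^ k)| ≤ e := by
          rw [abs_mul, abs_of_nonneg (hc0 i).1]
          calc c i * |((p i).1 : ℝ) ^ k - ((p i).2 : ℝ) ^ k| ≤ 1 * |((p i).1 : ℝ) ^ k - ((p i).2 : ℝ) ^ k| :=
                mul_le_mul_of_nonneg_right (hc0 i).2 (abs_nonneg _)
            _ ≤ e := by
              rw [one_mul]
              exact h4
        have := (abs_le.1 h5).1
        linarith
  have t2 := Finset.sum_le_sum fun i (_ : i ∈ Finset.univ) => t1 i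
  rw [Finset.sum_sub_distrib, Finset.sum_ite_eq' Finset.univ i0, if_pos (Finset.mem_univ _),
    Finset.sum_const, Finset.card_univ, Fintype.card_fin, nsmul_eq_mul] at t2
  exact t2

/-- the odd part is large -/
lemma QL_lower {q X a b l t : ℝ} {k m : ℕ} (hk : 2 ≤ k) (hq : 0 < q) (hq1 : q < 1) (hX : 1 ≤ X) (ha : 0 < a) (hb1 : 1 ≤ b)
    (hl : l ∈ Icc a b) (p : Fin m → ℕ × ℕ)
    (hp : ∀ i : Fin m, (p i).1 ∈ SS q X i ∧ (p i).2 ∈ SS q X i) (i0 : Fin m)
    (h0 : ∀ i, i < i0 → (p i).1 = (p i).2) (h1 : (p i0).2 < (p i0).1) (hc : CD q k t m (lev q X i0)) (ht : 0 ≤ t)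
    (hF : |FL k p l| ≤ t) :
    (Even (i0 : ℕ) → QL k p ≤ -(1 / (2 * b) * ((((p i0).1 : ℝ) - (p i0).2) * (lev q X i0) ^ ((k : ℝ) - 1)))) ∧
    (¬ Even (i0 : ℕ) → 1 / (2 * b) * ((((p i0).1 : ℝ) - (p i0).2) * (lev q X i0) ^ ((k : ℝ) - 1)) ≤ QL k p) := by
  set u := lev q X i0 with hu
  have hu1 : 1 ≤ u := one_le_lev hq.le hX _
  have hk' : (2 : ℝ) ≤ k := by exact_mod_cast hk
  have hx0 := (mem_SS hX).1 (hp i0).1
  have hy0 := (mem_SS hX).1 (hp i0).2
  rw [← hu] at hx0 hy0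
  have hxy : ((p i0).2 : ℝ) + 1 ≤ (p i0).1 := by exact_mod_cast h1
  set Δ : ℝ := ((p i0).1 : ℝ) ^ k - ((p i0).2 : ℝ) ^ k with hΔ
  set H : ℝ := (((p i0).1 : ℝ) - (p i0).2) * u ^ ((k : ℝ) - 1) with hH
  have hD : H ≤ Δ := by
    have := pow_diff (θ := (k : ℝ)) (Y := u) (x := ((p i0).1 : ℝ)) (y := ((p i0).2 : ℝ)) (by linarith) (by linarith) hy0.1
      (by linarith)
    rw [Real.rpow_natCast, Real.rpow_natCast] at this
    exact this
  have hua0 : 0 < u ^ ((k : ℝ) - 1) := Real.rpow_pos_of_pos (by linarith) _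
  have hH1 : u ^ ((k : ℝ) - 1) ≤ H := by
    rw [hH]
    nlinarith
  have hH0 : 0 < H := by linarith
  unfold CD at hc
  have hb0 : 0 < b := by linarith
  constructor
  · intro hev
    -- PL ≥ Δ - e
    have h2 := part_lower (k := k) hq hq1 hX p hp i0 h0 (fun i => if Even (i : ℕ) then 1 else 0)
      (fun i => by split_ifs <;> norm_num) (by rw [if_pos hev]) (fun i hi => by
        rw [if_neg]
        rw [hi]
        intro h
        exact absurd hev (Nat.even_add_one.1 h))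
    have e1 : ∑ i : Fin m, (if Even (i : ℕ) then (1 : ℝ) else 0) * (((p i).1 : ℝ) ^ k - ((p i).2 : ℝ) ^ k) = PL k p := by
      unfold PL
      refine Finset.sum_congr rfl fun i _ => ?_
      split_ifs <;> simp
    rw [e1] at h2
    rw [FL_eq] at hF
    have h3 := (abs_le.1 hF).2
    have h4 : l * QL k p ≤ -(H / 2) := by linarith
    have hl0 : 0 < l := by linarith [hl.1]
    have h5 : QL k p ≤ 0 := by
      by_contra hne
      push Not at hne
      have := mul_pos hl0 hne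
      linarith
    have h6 : b * QL k p ≤ l * QL k p := by nlinarith [hl.2]
    have h7 : b * QL k p ≤ -(H / 2) := by linarith
    have e2 : -(1 / (2 * b) * H) = -(H / 2) / b := by
      field_simp
    rw [e2, le_div_iff₀ hb0]
    linarith
  · intro hodd
    have h2 := part_lower (k := k) hq hq1 hX p hp i0 h0 (fun i => if Even (i : ℕ) then 0 else 1)
      (fun i => by split_ifs <;> norm_num) (by rw [if_neg hodd]) (fun i hi => by
        rw [if_pos]
        rw [hi]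
        exact Nat.even_add_one.2 hodd)
    have e1 : ∑ i : Fin m, (if Even (i : ℕ) then (0 : ℝ) else 1) * (((p i).1 : ℝ) ^ k - ((p i).2 : ℝ) ^ k) = QL k p := by
      unfold QL
      refine Finset.sum_congr rfl fun i _ => ?_
      split_ifs <;> simp
    rw [e1] at h2
    have h3 : H / 2 ≤ QL k p := by linarith
    have h4 : 1 / (2 * b) * H ≤ H / 2 := by
      rw [one_div, ← div_eq_inv_mul]
      exact div_le_div_of_nonneg_left hH0.le (by norm_num) (by linarith)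
    linarith

lemma FL_swap (k : ℕ) {m : ℕ} (p : Fin m → ℕ × ℕ) (l : ℝ) : FL k (fun i => (p i).swap) l = -FL k p l := by
  unfold FL
  rw [← Finset.sum_neg_distrib]
  refine Finset.sum_congr rfl fun i _ => ?_
  simp only [Prod.fst_swap, Prod.snd_swap]
  ring

/-- the measure of the coefficients -/
lemma volL_le {q X a b t : ℝ} {k m : ℕ} (hk : 2 ≤ k) (hq : 0 < q) (hq1 : q < 1) (hX : 1 ≤ X) (ha : 0 < a) (hb1 : 1 ≤ b)
    (ht : 0 ≤ t) (p : Fin m → ℕ × ℕ) (hp : ∀ i : Fin m, (p i).1 ∈ SS q X i ∧ (p i).2 ∈ SS q X i) (i0 : Fin m)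
    (h0 : ∀ i, i < i0 → (p i).1 = (p i).2) (h1 : (p i0).1 ≠ (p i0).2) (hc : CD q k t m (lev q X i0)) :
    volume {l | l ∈ Icc a b ∧ |FL k p l| ≤ t} ≤
      ENNReal.ofReal (2 * (2 * b * t) * (1 / |((p i0).1 : ℝ) - (p i0).2|) * (lev q X i0) ^ (1 - (k : ℝ))) := by
  have main : ∀ p : Fin m → ℕ × ℕ, (∀ i : Fin m, (p i).1 ∈ SS q X i ∧ (p i).2 ∈ SS q X i) →
      (∀ i, i < i0 → (p i).1 = (p i).2) → (p i0).2 < (p i0).1 →
      volume {l | l ∈ Icc a b ∧ |FL k p l| ≤ t} ≤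
        ENNReal.ofReal (2 * (2 * b * t) * (1 / |((p i0).1 : ℝ) - (p i0).2|) * (lev q X i0) ^ (1 - (k : ℝ))) := by
    intro p hp h0 h1
    have hlt : ((p i0).2 : ℝ) < (p i0).1 := by exact_mod_cast h1
    have hu := lev_pos (q := q) hX (i0 : ℕ)
    have hb0 : 0 < b := by linarith
    set D : ℝ := 1 / (2 * b) * ((((p i0).1 : ℝ) - (p i0).2) * (lev q X i0) ^ ((k : ℝ) - 1)) with hDdef
    have hD : 0 < D := by
      have h2 : 0 < ((p i0).1 : ℝ) - (p i0).2 := by linarith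
      have h3 := Real.rpow_pos_of_pos hu ((k : ℝ) - 1)
      positivity
    have e1 : 2 * t / D = 2 * (2 * b * t) * (1 / |((p i0).1 : ℝ) - (p i0).2|) * (lev q X i0) ^ (1 - (k : ℝ)) := by
      rw [abs_of_pos (by linarith), show (1 - (k : ℝ)) = -((k : ℝ) - 1) by ring, Real.rpow_neg hu.le, hDdef]
      have h2 : (((p i0).1 : ℝ) - (p i0).2) ≠ 0 := by
        intro h; linarith
      have h3 : (lev q X i0) ^ ((k : ℝ) - 1) ≠ 0 := (Real.rpow_pos_of_pos hu _).ne'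
      field_simp
    rw [← e1]
    by_cases hev : Even (i0 : ℕ)
    · have e2 : {l | l ∈ Icc a b ∧ |FL k p l| ≤ t} = {l | l ∈ Icc a b ∧ |-(FL k p l)| ≤ t} := by
        ext l
        simp
      rw [e2]
      refine sub_vol (F := fun l => -(FL k p l)) (F' := fun _ => -(QL k p)) (fun x _ => (FL_deriv k p x).neg) hD
        fun x hx hx2 => ?_
      rw [abs_neg] at hx2
      have := (QL_lower hk hq hq1 hX ha hb1 hx p hp i0 h0 h1 hc ht hx2).1 hev
      linarith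
    · refine sub_vol (F := FL k p) (F' := fun _ => QL k p) (fun x _ => FL_deriv k p x) hD fun x hx hx2 => ?_
      exact (QL_lower hk hq hq1 hX ha hb1 hx p hp i0 h0 h1 hc ht hx2).2 hev
  rcases lt_or_gt_of_ne h1 with h2 | h2
  · have h3 := main (fun i => (p i).swap) (fun i => ⟨(hp i).2, (hp i).1⟩) (fun i hi => (h0 i hi).symm) h2
    simp only [FL_swap, abs_neg, Prod.fst_swap, Prod.snd_swap] at h3
    rw [abs_sub_comm] at h3
    exact h3
  · exact main p hp h0 h2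

/-- the measure of the coefficients, in terms of weights -/
lemma volL_le' {q X a b t : ℝ} {k m : ℕ} (hk : 2 ≤ k) (hq : 0 < q) (hq1 : q < 1) (hX : 1 ≤ X) (ha : 0 < a) (hab : a ≤ b)
    (hb1 : 1 ≤ b) (ht : 0 ≤ t) (p : Fin m → ℕ × ℕ) (hp : p ∈ PPs q X m) (hc : ∀ i : Fin m, CD q k t m (lev q X i)) :
    volume {l | l ∈ Icc a b ∧ |FL k p l| ≤ t} ≤
      ENNReal.ofReal (((k + (b - a) : ℝ) - k) * ∏ i, (if (p i).1 = (p i).2 then (1 : ℝ) else 0) +
        ∑ i0 : Fin m, 2 * (2 * b * t) * (lev q X i0) ^ (1 - (k : ℝ)) * ∏ i, psi i0 i (p i)) := by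
  rw [mem_PPs] at hp
  have hb0 : 0 ≤ b := by linarith
  have hnn : ∀ i0 : Fin m, 0 ≤ 2 * (2 * b * t) * (lev q X i0) ^ (1 - (k : ℝ)) * ∏ i, psi i0 i (p i) := by
    intro i0
    have h1 := (Real.rpow_pos_of_pos (lev_pos (q := q) hX (i0 : ℕ)) (1 - (k : ℝ))).le
    have h2 : 0 ≤ ∏ i, psi i0 i (p i) := Finset.prod_nonneg fun i _ => psi_nonneg _ _ _
    positivity
  rw [add_sub_cancel_left]
  by_cases hall : ∀ i, (p i).1 = (p i).2
  · have h1 : ∏ i, (if (p i).1 = (p i).2 then (1 : ℝ) else 0) = 1 := by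
      apply Finset.prod_eq_one
      intro i _
      rw [if_pos (hall i)]
    rw [h1]
    calc volume {l | l ∈ Icc a b ∧ |FL k p l| ≤ t} ≤ volume (Icc a b) := measure_mono fun x hx => hx.1
      _ = ENNReal.ofReal (b - a) := Real.volume_Icc
      _ ≤ _ := by
        apply ENNReal.ofReal_le_ofReal
        have := Finset.sum_nonneg fun i0 (_ : i0 ∈ (Finset.univ : Finset (Fin m))) => hnn i0
        linarith
  · push Not at hall
    set s : Finset (Fin m) := Finset.univ.filter fun i => (p i).1 ≠ (p i).2 with hs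
    have hne : s.Nonempty := by
      obtain ⟨i, hi⟩ := hall
      exact ⟨i, by simp [hs, hi]⟩
    set i0 := s.min' hne with hi0
    have hi0s : (p i0).1 ≠ (p i0).2 := by
      have := s.min'_mem hne
      rw [← hi0, hs, Finset.mem_filter] at this
      exact this.2
    have hlt : ∀ i, i < i0 → (p i).1 = (p i).2 := by
      intro i hi
      by_contra hne'
      have : i ∈ s := by simp [hs, hne']
      exact absurd (s.min'_le i this) (not_le.2 hi)
    refine (volL_le hk hq hq1 hX ha hb1 ht p hp i0 hlt hi0s (hc i0)).trans ?_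
    apply ENNReal.ofReal_le_ofReal
    have h1 : ∏ i, psi i0 i (p i) = 1 / |((p i0).1 : ℝ) - (p i0).2| := by
      rw [Finset.prod_eq_single i0]
      · unfold psi od
        rw [if_neg (lt_irrefl _), if_pos rfl, if_neg hi0s]
      · intro i _ hi
        unfold psi
        rcases lt_or_gt_of_ne hi with h | h
        · rw [if_pos h, if_pos (hlt i h)]
        · rw [if_neg (not_lt.2 h.le), if_neg hi]
      · intro h
        exact absurd (Finset.mem_univ _) h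
    have h2 : 2 * (2 * b * t) * (lev q X i0) ^ (1 - (k : ℝ)) * ∏ i, psi i0 i (p i) ≤
        ∑ i0 : Fin m, 2 * (2 * b * t) * (lev q X i0) ^ (1 - (k : ℝ)) * ∏ i, psi i0 i (p i) :=
      Finset.single_le_sum (f := fun i0 : Fin m => 2 * (2 * b * t) * (lev q X i0) ^ (1 - (k : ℝ)) * ∏ i, psi i0 i (p i))
        (fun i _ => hnn i) (Finset.mem_univ i0)
    rw [h1] at h2
    have h3 : 0 ≤ (b - a) * ∏ i, (if (p i).1 = (p i).2 then (1 : ℝ) else 0) := by
      apply mul_nonneg (by linarith)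
      apply Finset.prod_nonneg
      intro i _
      split_ifs <;> norm_num
    have h4 : 2 * (2 * b * t) * (1 / |((p i0).1 : ℝ) - (p i0).2|) * (lev q X i0) ^ (1 - (k : ℝ)) =
        2 * (2 * b * t) * (lev q X i0) ^ (1 - (k : ℝ)) * (1 / |((p i0).1 : ℝ) - (p i0).2|) := by ring
    rw [h4]
    linarith

end Pool.Agent.J4H7.WL
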