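import Pool.Agent.J4H7.WE.C2
import Pool.Agent.H373R2.NB.Weyl

set_option autoImplicit false

/-!
# Waring's problem with the coefficients `1` and `λ`, part C (helper7)

Exponential sums with `β z ^ k`: the inverse theorem, and the second derivative test.
-/

namespace Pool.Agent.J4H7.WL

open Real Set Filter Topology
open Pool.Agent.J4H7.WE
open Pool.Agent.Helper153.Vdc (ee dd Cond ee_norm vdc)

open Polynomial in
/-- **inverse theorem** for the sums with `β z ^ k` -/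
lemma SE_inv (k : ℕ) (hk : 1 ≤ k) {ν : ℝ} (hν : 0 < ν) :
    ∃ σ : ℝ, 0 < σ ∧ σ ≤ 1 ∧ ∃ X0 : ℝ, 2 ≤ X0 ∧ ∀ X : ℝ, X0 ≤ X → ∀ (β : ℝ) (Y M : ℕ), (M : ℝ) ≤ 65 * X →
      X ^ (1 - σ) ≤ ‖SE (k : ℝ) Y M β‖ → ∃ q : ℕ, 1 ≤ q ∧ (q : ℝ) ≤ X ^ ν ∧ ∃ a : ℤ,
        |q * β - a| ≤ X ^ (-(k : ℝ) + ν) := by
  obtain ⟨c, m, hc, hI⟩ := Pool.Agent.H373R2.NB.IW_all k hk
  set σ : ℝ := min 1 (ν / (2 * (m + k + 1))) with hσ
  have hσ0 : 0 < σ := lt_min one_pos (by positivity)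
  have hσ1 : σ ≤ 1 := min_le_left _ _
  have hσ2 : σ * (m + k) ≤ ν / 2 := by
    have h1 : σ ≤ ν / (2 * (m + k + 1)) := min_le_right _ _
    rw [le_div_iff₀ (by positivity)] at h1
    have : (0 : ℝ) ≤ m := Nat.cast_nonneg m
    have : (0 : ℝ) ≤ k := Nat.cast_nonneg k
    nlinarith
  obtain ⟨X1, hX1⟩ := eventually_atTop.1 ((tendsto_rpow_atTop (show 0 < ν / 2 by positivity)).eventually_ge_atTop
    ((k.factorial : ℝ) * (c * 65 ^ m)))
  refine ⟨σ, hσ0, hσ1, max X1 2, le_max_right _ _, ?_⟩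
  intro X hX β Y M hM hS
  have hX2 : 2 ≤ X := (le_max_right _ _).trans hX
  have hX0 : 0 < X := by linarith
  have hXν := hX1 X ((le_max_left _ _).trans hX)
  have hP : 0 < X ^ (1 - σ) := Real.rpow_pos_of_pos hX0 _
  have hMS : X ^ (1 - σ) ≤ M := hS.trans (SE_triv _ _ _ _)
  have hM0 : (0 : ℝ) < M := by linarith
  have hM1 : 1 ≤ M := by
    have : 0 < M := by exact_mod_cast hM0
    omega
  have hXσ1 : 1 ≤ X ^ σ := Real.one_le_rpow (by linarith) hσ0.le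
  set f : ℤ[X] := (Polynomial.X + Polynomial.C (Y : ℤ)) ^ k with hf
  have hmon : f.Monic := (Polynomial.monic_X_add_C _).pow k
  have hdeg : f.natDegree = k := by
    rw [hf, Polynomial.Monic.natDegree_pow (Polynomial.monic_X_add_C _), Polynomial.natDegree_X_add_C, mul_one]
  have hcoef : f.coeff k = 1 := by
    have := hmon.coeff_natDegree
    rwa [hdeg] at this
  have hPh := Pool.Agent.H373R2.NB.Ph_poly k f hdeg.le β
  rw [hcoef] at hPh
  have e1 : ∑ n ∈ Finset.range M, Pool.Agent.Helper602.MK.ee (β * ((f.eval (n : ℤ) : ℤ) : ℝ)) = SE (k : ℝ) Y M β := by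
    unfold SE
    refine Finset.sum_congr rfl fun n _ => ?_
    rw [Real.rpow_natCast, hf, Polynomial.eval_pow]
    simp only [Polynomial.eval_add, Polynomial.eval_X, Polynomial.eval_C]
    push_cast
    unfold Pool.Agent.Helper602.MK.ee Pool.Agent.Helper153.Vdc.ee
    push_cast
    rw [add_comm (n : ℂ) (Y : ℂ)]
  obtain ⟨q, hq1, hq2, a, ha⟩ := hI M (65 * X ^ σ) _ _ hM1 (by linarith) hPh (by
    rw [e1]
    calc (M : ℝ) ≤ 65 * X := hM
      _ = 65 * X ^ σ * X ^ (1 - σ) := by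
        rw [mul_assoc, ← Real.rpow_add hX0]
        simp
      _ ≤ _ := mul_le_mul_of_nonneg_left hS (by positivity))
  have e2 : (c : ℝ) * (65 * X ^ σ) ^ m = (c * 65 ^ m) * X ^ (σ * m) := by
    rw [mul_pow, ← Real.rpow_natCast (X ^ σ) m, ← Real.rpow_mul hX0.le]
    ring
  rw [e2] at hq2 ha
  have hkf : (1 : ℝ) ≤ (k.factorial : ℝ) := by exact_mod_cast k.factorial_pos
  have hc0 : (0 : ℝ) ≤ c * 65 ^ m := by positivity
  have hc1 : (c : ℝ) * 65 ^ m ≤ X ^ (ν / 2) := by nlinarith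
  refine ⟨q * k.factorial, Nat.one_le_iff_ne_zero.2 (Nat.mul_ne_zero (by omega) k.factorial_ne_zero), ?_, a, ?_⟩
  · push_cast
    calc (q : ℝ) * k.factorial ≤ ((c * 65 ^ m) * X ^ (σ * m)) * k.factorial :=
          mul_le_mul_of_nonneg_right hq2 (by positivity)
      _ = ((k.factorial : ℝ) * (c * 65 ^ m)) * X ^ (σ * m) := by ring
      _ ≤ X ^ (ν / 2) * X ^ (σ * m) := mul_le_mul_of_nonneg_right hXν (Real.rpow_nonneg hX0.le _)
      _ = X ^ (ν / 2 + σ * m) := by rw [Real.rpow_add hX0]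
      _ ≤ X ^ ν := by
        apply Real.rpow_le_rpow_of_exponent_le (by linarith)
        have : 0 ≤ σ * k := by positivity
        linarith
  · have e3 : ((q * k.factorial : ℕ) : ℝ) * β - a = q * (β * ((k.factorial : ℝ) * ((1 : ℤ) : ℝ))) - a := by
      push_cast
      ring
    rw [e3]
    refine ha.trans ?_
    have hMk : X ^ ((1 - σ) * k) ≤ (M : ℝ) ^ k := by
      rw [Real.rpow_mul hX0.le, Real.rpow_natCast]
      exact pow_le_pow_left₀ hP.le hMS k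
    have hXk : 0 < X ^ ((1 - σ) * k) := Real.rpow_pos_of_pos hX0 _
    calc (c * 65 ^ m) * X ^ (σ * m) / (M : ℝ) ^ k ≤ X ^ (ν / 2) * X ^ (σ * m) / X ^ ((1 - σ) * k) := by
          gcongr
      _ = X ^ (ν / 2 + σ * m - (1 - σ) * k) := by
          rw [← Real.rpow_add hX0, ← Real.rpow_sub hX0]
      _ ≤ X ^ (-(k : ℝ) + ν) := by
          apply Real.rpow_le_rpow_of_exponent_le (by linarith)
          linarith

/-- **the condition of the second derivative test** for `β z ^ θ`, `θ ≥ 2`, up to conjugation -/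
lemma cond_two {θ : ℝ} (hθ : 2 ≤ θ) {X β : ℝ} (hX : 1 ≤ X) (hβ : β ≠ 0) {Y M : ℕ}
    (hY : 4 * X ≤ Y) (hM : (Y : ℝ) + M ≤ 64 * X + 1) : ∃ g : ℕ → ℝ,
    ‖∑ n ∈ Finset.range M, ee (β * ((Y : ℝ) + n) ^ θ)‖ = ‖∑ n ∈ Finset.range M, ee (g n)‖ ∧
    Cond 2 g M (|β| * |ff θ 2| * (min ((4 : ℝ) ^ (θ - (2 : ℕ))) ((64 : ℝ) ^ (θ - (2 : ℕ))) * X ^ (θ - (2 : ℕ))))
      ((16 : ℝ) ^ |θ - (2 : ℕ)|) := by
  have hX0 : 0 < X := by linarith
  have hY0 : (0 : ℝ) < Y := by linarith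
  set lam : ℝ := |β| * |ff θ 2| * (min ((4 : ℝ) ^ (θ - (2 : ℕ))) ((64 : ℝ) ^ (θ - (2 : ℕ))) * X ^ (θ - (2 : ℕ))) with hlam
  have hff : ff θ 2 = θ * (θ - 1) := by
    unfold ff
    rw [Finset.prod_range_succ, Finset.prod_range_succ, Finset.prod_range_zero]
    push_cast
    ring
  have hff0 : 0 < ff θ 2 := by
    rw [hff]
    exact mul_pos (by linarith) (by linarith)
  have hc0 : 0 < |β| * |ff θ 2| := mul_pos (abs_pos.2 hβ) (abs_pos.2 hff0.ne')
  set s : ℝ := if 0 < β then 1 else -1 with hs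
  have hsabs : s * β = |β| := by
    by_cases h : 0 < β
    · rw [hs, if_pos h, abs_of_pos h, one_mul]
    · rw [hs, if_neg h, abs_of_nonpos (not_lt.1 h)]
      ring
  refine ⟨fun n : ℕ => s * β * (Y + n) ^ θ, ?_, ?_⟩
  · by_cases h : 0 < β
    · rw [hs, if_pos h]
      simp only [one_mul]
    · rw [hs, if_neg h]
      have e3 : ∀ n : ℕ, (-1 : ℝ) * β * ((Y : ℝ) + n) ^ θ = -(β * ((Y : ℝ) + n) ^ θ) := fun n => by ring
      simp_rw [e3]
      rw [norm_neg_sum]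
  · set G : ℕ → ℝ → ℝ := fun i x => s * β * ff θ i * (Y + x) ^ (θ - i) with hG
    have h1 : ∀ i < 3, ∀ x ∈ Icc (0 : ℝ) ((M : ℝ) - 1), HasDerivAt (G i) (G (i + 1) x) x :=
      fun i _ x hx => deriv_fwd hY0 i hx
    have e4 : (fun n : ℕ => G 0 n) = fun n : ℕ => s * β * (Y + n) ^ θ := by
      funext n
      simp [hG, ff]
    rw [← e4]
    refine ⟨fun n hn => ?_, fun n hn => ?_⟩
    · have hn' : (n : ℝ) + ((2 : ℕ) : ℝ) ≤ (M : ℝ) - 1 := by
        have : n + 2 + 1 ≤ M := by omega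
        have : ((n + 2 + 1 : ℕ) : ℝ) ≤ M := by exact_mod_cast this
        push_cast at this ⊢
        linarith
      obtain ⟨ξ, hξ, h5⟩ := dd_deriv 2 G ((M : ℝ) - 1) (fun i hi => h1 i (by omega)) n hn'
      obtain ⟨g1, g2⟩ := rpow_range (s := θ - (2 : ℕ)) hX0 (z := Y + ξ) (by linarith [hξ.1]) (by linarith [hξ.2])
      have e5 : G 2 ξ = |β| * |ff θ 2| * (Y + ξ) ^ (θ - (2 : ℕ)) := by
        simp only [hG]
        rw [hsabs, abs_of_pos hff0]
      rw [h5, e5, hlam]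
      constructor
      · exact mul_le_mul_of_nonneg_left g1 hc0.le
      · calc |β| * |ff θ 2| * (Y + ξ) ^ (θ - (2 : ℕ)) ≤ |β| * |ff θ 2| *
            ((16 : ℝ) ^ |θ - (2 : ℕ)| * (min ((4 : ℝ) ^ (θ - (2 : ℕ))) ((64 : ℝ) ^ (θ - (2 : ℕ))) * X ^ (θ - (2 : ℕ)))) :=
              mul_le_mul_of_nonneg_left g2 hc0.le
          _ = _ := by ring
    · have hn' : (n : ℝ) + ((3 : ℕ) : ℝ) ≤ (M : ℝ) - 1 := by
        have : n + 3 + 1 ≤ M := by omega
        have : ((n + 3 + 1 : ℕ) : ℝ) ≤ M := by exact_mod_cast this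
        push_cast at this ⊢
        linarith
      obtain ⟨ξ, hξ, h5⟩ := dd_deriv 3 G ((M : ℝ) - 1) h1 n hn'
      rw [h5]
      simp only [hG]
      rw [ff_succ, hsabs]
      have hz : 0 < (Y : ℝ) + ξ := by linarith [hξ.1]
      have := Real.rpow_pos_of_pos hz (θ - ((2 + 1 : ℕ) : ℝ))
      have h2 : 0 ≤ θ - ((2 : ℕ) : ℝ) := by
        push_cast
        linarith
      have := abs_pos.2 hβ
      positivity

/-- the second derivative test -/
lemma SE_two {θ : ℝ} (hθ : 2 ≤ θ) {η : ℝ} (hη : 0 < η) (hη1 : η < 1) :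
    ∃ σ : ℝ, 0 < σ ∧ σ ≤ 1 ∧ ∃ C : ℝ, 1 ≤ C ∧ ∃ X0 : ℝ, 2 ≤ X0 ∧ ∀ X : ℝ, X0 ≤ X → ∀ β : ℝ,
      X ^ (2 * η) ≤ |β| * X ^ θ → |β| * X ^ θ ≤ X ^ (2 - 2 * η) → ∀ Y M : ℕ, 4 * X ≤ Y →
      (Y : ℝ) + M ≤ 64 * X + 1 → ‖∑ n ∈ Finset.range M, ee (β * ((Y : ℝ) + n) ^ θ)‖ ≤ C * X ^ (1 - σ) := by
  have hA : 1 ≤ (16 : ℝ) ^ |θ - (2 : ℕ)| := Real.one_le_rpow (by norm_num) (abs_nonneg _)
  obtain ⟨σ', hσ', C, hC, H⟩ := vdc 2 le_rfl ((16 : ℝ) ^ |θ - (2 : ℕ)|) hA η hη hη1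
  set σ := min σ' 1 with hσ
  have hσ0 : 0 < σ := lt_min hσ' one_pos
  have hσ1 : σ ≤ 1 := min_le_right _ _
  have hff : ff θ 2 = θ * (θ - 1) := by
    unfold ff
    rw [Finset.prod_range_succ, Finset.prod_range_succ, Finset.prod_range_zero]
    push_cast
    ring
  have hff0 : 0 < ff θ 2 := by
    rw [hff]
    exact mul_pos (by linarith) (by linarith)
  set κ : ℝ := |ff θ 2| * min ((4 : ℝ) ^ (θ - (2 : ℕ))) ((64 : ℝ) ^ (θ - (2 : ℕ))) with hκ
  have hκ0 : 0 < κ := mul_pos (abs_pos.2 hff0.ne')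
    (lt_min (Real.rpow_pos_of_pos (by norm_num) _) (Real.rpow_pos_of_pos (by norm_num) _))
  obtain ⟨X1, hX1⟩ := eventually_atTop.1 ((tendsto_rpow_atTop hη).eventually_ge_atTop (max (1 / κ) (65 ^ η * κ)))
  refine ⟨σ, hσ0, hσ1, C * 65, by linarith, max X1 2, le_max_right _ _, ?_⟩
  intro X hX β h1 h2 Y M hY hM
  have hX2 : 2 ≤ X := (le_max_right _ _).trans hX
  have hX0 : 0 < X := by linarith
  have hXη := hX1 X ((le_max_left _ _).trans hX)
  have hXa : 1 / κ ≤ X ^ η := (le_max_left _ _).trans hXη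
  have hXb : 65 ^ η * κ ≤ X ^ η := (le_max_right _ _).trans hXη
  have hβ : β ≠ 0 := by
    rintro rfl
    rw [abs_zero, zero_mul] at h1
    exact absurd h1 (not_le.2 (Real.rpow_pos_of_pos hX0 _))
  obtain ⟨g, hg1, hg2⟩ := cond_two hθ (by linarith) hβ hY hM
  rw [hg1]
  set N := ⌈64 * X⌉₊ with hN
  have hNl : 64 * X ≤ N := Nat.le_ceil _
  have hNu : (N : ℝ) ≤ 65 * X := by
    have := Nat.ceil_lt_add_one (show 0 ≤ 64 * X by linarith)
    rw [← hN] at this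
    linarith
  have hN0 : (0 : ℝ) < N := by linarith
  have hN1 : 1 ≤ N := by
    have : (1 : ℝ) ≤ N := by linarith
    exact_mod_cast this
  have hMN : M ≤ N := by
    have h3 : (M : ℝ) ≤ N := by linarith
    exact_mod_cast h3
  have elam : |β| * |ff θ 2| * (min ((4 : ℝ) ^ (θ - (2 : ℕ))) ((64 : ℝ) ^ (θ - (2 : ℕ))) * X ^ (θ - (2 : ℕ))) =
      κ * (|β| * X ^ θ) * X ^ (-(2 : ℝ)) := by
    rw [show X ^ (θ - ((2 : ℕ) : ℝ)) = X ^ θ * X ^ (-(2 : ℝ)) by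
      rw [← Real.rpow_add hX0]
      push_cast
      congr 1, hκ]
    ring
  have hk0 : 0 < X ^ (-(2 : ℝ)) := Real.rpow_pos_of_pos hX0 _
  have l1 : (N : ℝ) ^ (-2 + η) ≤ |β| * |ff θ 2| * (min ((4 : ℝ) ^ (θ - (2 : ℕ))) ((64 : ℝ) ^ (θ - (2 : ℕ))) * X ^ (θ - (2 : ℕ))) := by
    rw [elam]
    calc (N : ℝ) ^ (-2 + η) ≤ X ^ (-2 + η) := Real.rpow_le_rpow_of_nonpos hX0 (by linarith) (by linarith)
      _ = 1 * X ^ (-2 + η) := (one_mul _).symm
      _ ≤ (κ * X ^ η) * X ^ (-2 + η) := by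
        apply mul_le_mul_of_nonneg_right _ (Real.rpow_pos_of_pos hX0 _).le
        rw [div_le_iff₀ hκ0] at hXa
        linarith
      _ = κ * X ^ (2 * η) * X ^ (-(2 : ℝ)) := by
        have e6 : X ^ η * X ^ (-2 + η) = X ^ (2 * η) * X ^ (-(2 : ℝ)) := by
          rw [← Real.rpow_add hX0, ← Real.rpow_add hX0]
          congr 1
          ring
        rw [mul_assoc κ, e6]
        ring
      _ ≤ _ := by
        apply mul_le_mul_of_nonneg_right _ hk0.le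
        exact mul_le_mul_of_nonneg_left h1 hκ0.le
  have l2 : |β| * |ff θ 2| * (min ((4 : ℝ) ^ (θ - (2 : ℕ))) ((64 : ℝ) ^ (θ - (2 : ℕ))) * X ^ (θ - (2 : ℕ))) ≤ (N : ℝ) ^ (-η) := by
    rw [elam]
    have h65 : (0 : ℝ) < 65 ^ η := Real.rpow_pos_of_pos (by norm_num) _
    have hXη0 : 0 < X ^ η := Real.rpow_pos_of_pos hX0 _
    calc κ * (|β| * X ^ θ) * X ^ (-(2 : ℝ)) ≤ κ * X ^ (2 - 2 * η) * X ^ (-(2 : ℝ)) := by
          apply mul_le_mul_of_nonneg_right _ hk0.le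
          exact mul_le_mul_of_nonneg_left h2 hκ0.le
      _ = κ * X ^ (-(2 * η)) := by
          rw [mul_assoc, ← Real.rpow_add hX0]
          congr 2
          ring
      _ = (κ * 65 ^ η) * X ^ (-η) * ((65 : ℝ) ^ (-η) * X ^ (-η)) := by
          rw [Real.rpow_neg (by norm_num : (0 : ℝ) ≤ 65), show -(2 * η) = -η + -η by ring, Real.rpow_add hX0]
          field_simp
      _ ≤ 1 * ((65 : ℝ) ^ (-η) * X ^ (-η)) := by
          apply mul_le_mul_of_nonneg_right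
          · rw [Real.rpow_neg hX0.le, ← div_eq_mul_inv, div_le_one hXη0]
            linarith
          · exact mul_nonneg (Real.rpow_nonneg (by norm_num) _) (Real.rpow_nonneg hX0.le _)
      _ = (65 * X) ^ (-η) := by
          rw [one_mul, Real.mul_rpow (by norm_num) hX0.le]
      _ ≤ (N : ℝ) ^ (-η) := Real.rpow_le_rpow_of_nonpos hN0 hNu (by linarith)
  refine (H N M g _ hN1 hMN hg2 l1 l2).trans ?_
  have hN1' : (1 : ℝ) ≤ N := by exact_mod_cast hN1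
  calc C * (N : ℝ) ^ (1 - σ') ≤ C * (N : ℝ) ^ (1 - σ) := by
        apply mul_le_mul_of_nonneg_left _ (by linarith)
        exact Real.rpow_le_rpow_of_exponent_le hN1' (by linarith [min_le_left σ' 1])
    _ ≤ C * (65 * X) ^ (1 - σ) := by
        apply mul_le_mul_of_nonneg_left _ (by linarith)
        exact Real.rpow_le_rpow hN0.le hNu (by linarith)
    _ = C * ((65 : ℝ) ^ (1 - σ) * X ^ (1 - σ)) := by rw [Real.mul_rpow (by norm_num) hX0.le]
    _ ≤ C * (65 * X ^ (1 - σ)) := by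
        apply mul_le_mul_of_nonneg_left _ (by linarith)
        apply mul_le_mul_of_nonneg_right _ (Real.rpow_nonneg hX0.le _)
        calc (65 : ℝ) ^ (1 - σ) ≤ 65 ^ (1 : ℝ) := Real.rpow_le_rpow_of_exponent_le (by norm_num) (by linarith)
          _ = 65 := Real.rpow_one _
    _ = _ := by ring

end Pool.Agent.J4H7.WL
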