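import Pool.Agent.J4H7.WL.D
import Pool.Agent.J4H7.WL.B
import Pool.Agent.J4H7.WE.D2

set_option autoImplicit false

/-!
# Waring's problem with the coefficients `1` and `λ`, part E (helper7)

The main term, and the number of coincidences.
-/

namespace Pool.Agent.J4H7.WL

open Real Set Filter Topology
open Pool.Agent.J4H7.WE
open Pool.Agent.Helper153.Vdc (ee)

/-- the length of the second range -/
noncomputable def kap (l : ℝ) : ℝ := 1 / (2 * (1 + l))

/-- the interval of the second free variable -/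
noncomputable def B2 (l X : ℝ) : Finset ℕ := Finset.Ico ⌈kap l * X⌉₊ (⌊2 * kap l * X⌋₊ + 1)

/-- `⌊c z ^ k⌋` -/
noncomputable def fc (k : ℕ) (c : ℝ) (z : ℕ) : ℕ := ⌊c * (z : ℝ) ^ k⌋₊

lemma fc_one (k z : ℕ) : fc k 1 z = z ^ k := by
  unfold fc
  rw [one_mul]
  have : ((z : ℝ) ^ k) = ((z ^ k : ℕ) : ℝ) := by push_cast; rfl
  rw [this, Nat.floor_natCast]

lemma fc_err (k : ℕ) {c : ℝ} (hc : 0 ≤ c) (z : ℕ) : (fc k c z : ℝ) ≤ c * (z : ℝ) ^ k ∧ c * (z : ℝ) ^ k ≤ fc k c z + 1 :=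
  ⟨Nat.floor_le (by positivity), (Nat.lt_floor_add_one _).le⟩

lemma kap_pos {l : ℝ} (hl : 0 < l) : 0 < kap l := by unfold kap; positivity

lemma kap_le {l : ℝ} (hl : 0 < l) : kap l ≤ 1 / 2 := by
  unfold kap
  apply one_div_le_one_div_of_le (by norm_num)
  linarith

lemma kap_mul {l : ℝ} (hl : 0 < l) {k : ℕ} (hk : 1 ≤ k) {X : ℝ} (hX : 0 ≤ X) : l * (2 * kap l * X) ^ k ≤ X ^ k := by
  have e1 : 2 * kap l = 1 / (1 + l) := by unfold kap; field_simp
  rw [e1, mul_pow, ← mul_assoc]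
  have h1 : l * (1 / (1 + l)) ^ k ≤ 1 := by
    have h2 : (1 / (1 + l)) ^ k ≤ (1 / (1 + l)) ^ 1 := by
      apply pow_le_pow_of_le_one (by positivity)
      · rw [div_le_one (by linarith)]
        linarith
      · exact hk
    calc l * (1 / (1 + l)) ^ k ≤ l * (1 / (1 + l)) ^ 1 := mul_le_mul_of_nonneg_left h2 hl.le
      _ = l / (1 + l) := by rw [pow_one]; ring
      _ ≤ 1 := by rw [div_le_one (by linarith)]; linarith
  calc l * (1 / (1 + l)) ^ k * X ^ k ≤ 1 * X ^ k := mul_le_mul_of_nonneg_right h1 (by positivity)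
    _ = _ := one_mul _

/-- the pure variable -/
lemma count_one {k : ℕ} (hk : 2 ≤ k) : ∃ c : ℝ, 0 < c ∧ ∃ X0 : ℝ, 4 ≤ X0 ∧ ∀ X : ℝ, X0 ≤ X → ∀ W T : ℕ,
    X ^ ((k : ℝ) - 1 / 4) ≤ W → (4 * X) ^ k ≤ (T : ℝ) - W + 1 → (T : ℝ) ≤ (32 * X) ^ k →
      c * X ^ (1 - 1 / 4 : ℝ) ≤ (((BB X).filter fun z => T < z ^ k + W ∧ z ^ k ≤ T).card : ℝ) := by
  set θ : ℝ := (k : ℝ) with hθd
  have hθ : (2 : ℝ) ≤ θ := by rw [hθd]; exact_mod_cast hk
  have hθ1 : 1 < θ := by linarith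
  set c0 : ℝ := 1 / (2 * θ * 32 ^ (θ - 1)) with hc0
  have hc00 : 0 < c0 := by positivity
  have ev1 : ∀ᶠ X : ℝ in atTop, (2 : ℝ) ≤ X ^ (θ - 1 / 4) := (tendsto_rpow_atTop (by linarith)).eventually_ge_atTop _
  have ev2 : ∀ᶠ X : ℝ in atTop, 4 / c0 ≤ X ^ (1 - 1 / 4 : ℝ) := (tendsto_rpow_atTop (by norm_num)).eventually_ge_atTop _
  obtain ⟨X2, hX2⟩ := eventually_atTop.1 (ev1.and ev2)
  refine ⟨c0 / 2, by positivity, max 4 X2, le_max_left _ _, ?_⟩
  intro X hX W T hW hT1 hT2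
  obtain ⟨g1, g2⟩ := hX2 X ((le_max_right _ _).trans hX)
  have hX4 : 4 ≤ X := (le_max_left _ _).trans hX
  have hX0 : 0 < X := by linarith
  have hθ0 : 0 < θ := by linarith
  rw [← Real.rpow_natCast (4 * X) k] at hT1
  rw [← Real.rpow_natCast (32 * X) k] at hT2
  set t : ℝ := (T : ℝ) - W + 1 with ht
  have h4X : 0 < (4 * X) ^ θ := Real.rpow_pos_of_pos (by linarith) _
  have ht0 : 0 < t := by linarith
  have hW2 : (2 : ℝ) ≤ W := g1.trans hW
  have hT0 : (0 : ℝ) < T := by linarith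
  set u : ℝ := t ^ (1 / θ) with hu
  set v : ℝ := (T : ℝ) ^ (1 / θ) with hv
  have huθ : u ^ θ = t := by rw [hu, ← Real.rpow_mul ht0.le, one_div_mul_cancel hθ0.ne', Real.rpow_one]
  have hvθ : v ^ θ = T := by rw [hv, ← Real.rpow_mul hT0.le, one_div_mul_cancel hθ0.ne', Real.rpow_one]
  have hu4 : 4 * X ≤ u := by
    have : ((4 * X) ^ θ) ^ (1 / θ) ≤ t ^ (1 / θ) := Real.rpow_le_rpow h4X.le hT1 (by positivity)
    rwa [← Real.rpow_mul (by linarith), mul_one_div_cancel hθ0.ne', Real.rpow_one] at this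
  have hv32 : v ≤ 32 * X := by
    have : (T : ℝ) ^ (1 / θ) ≤ ((32 * X) ^ θ) ^ (1 / θ) := Real.rpow_le_rpow hT0.le hT2 (by positivity)
    rwa [← Real.rpow_mul (by linarith), mul_one_div_cancel hθ0.ne', Real.rpow_one] at this
  have hu0 : 0 < u := by linarith
  have huv : u ≤ v := Real.rpow_le_rpow ht0.le (by linarith) (by positivity)
  have hv0 : 0 < v := by linarith
  have hlen : c0 * X ^ (1 - 1 / 4 : ℝ) ≤ v - u := by
    have h1 := bern hθ1.le hu0 huv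
    rw [huθ, hvθ] at h1
    have h2 : v ^ (θ - 1) ≤ (32 * X) ^ (θ - 1) := Real.rpow_le_rpow hv0.le hv32 (by linarith)
    have h3 : (T : ℝ) - t ≤ θ * (32 * X) ^ (θ - 1) * (v - u) := by
      refine h1.trans ?_
      apply mul_le_mul_of_nonneg_right _ (by linarith)
      exact mul_le_mul_of_nonneg_left h2 hθ0.le
    have h4 : X ^ (θ - 1 / 4) / 2 ≤ (T : ℝ) - t := by
      rw [ht]
      linarith
    have h5 : (32 * X) ^ (θ - 1) = 32 ^ (θ - 1) * X ^ (θ - 1) := Real.mul_rpow (by norm_num) hX0.le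
    have h6 : X ^ (1 - 1 / 4 : ℝ) = X ^ (θ - 1 / 4) / X ^ (θ - 1) := by
      rw [← Real.rpow_sub hX0]
      congr 1
      ring
    have h7 : 0 < X ^ (θ - 1) := Real.rpow_pos_of_pos hX0 _
    have h8 : (0 : ℝ) < 32 ^ (θ - 1) := Real.rpow_pos_of_pos (by norm_num) _
    rw [h5] at h3
    rw [h6, hc0]
    have e1 : 1 / (2 * θ * 32 ^ (θ - 1)) * (X ^ (θ - 1 / 4) / X ^ (θ - 1)) =
        (X ^ (θ - 1 / 4) / 2) / (θ * (32 ^ (θ - 1) * X ^ (θ - 1))) := by
      field_simp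
    rw [e1, div_le_iff₀ (by positivity)]
    linarith
  set Y := ⌈u⌉₊ with hY
  have hYu : u ≤ Y := Nat.le_ceil _
  have hYu' : (Y : ℝ) < u + 1 := Nat.ceil_lt_add_one hu0.le
  have hvf : (⌊v⌋₊ : ℝ) ≤ v := Nat.floor_le hv0.le
  have hvf' : v < (⌊v⌋₊ : ℝ) + 1 := Nat.lt_floor_add_one v
  have hlen4 : 4 ≤ c0 * X ^ (1 - 1 / 4 : ℝ) := by
    rw [div_le_iff₀ hc00] at g2
    linarith
  have hYv : Y ≤ ⌊v⌋₊ + 1 := by
    have : (Y : ℝ) < ((⌊v⌋₊ + 1 + 1 : ℕ) : ℝ) := by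
      push_cast
      linarith
    have : Y < ⌊v⌋₊ + 1 + 1 := by exact_mod_cast this
    omega
  have hsub : Finset.Ico Y (⌊v⌋₊ + 1) ⊆ (BB X).filter fun z => T < z ^ k + W ∧ z ^ k ≤ T := by
    intro z hz
    rw [Finset.mem_Ico] at hz
    have hz1 : u ≤ z := hYu.trans (by exact_mod_cast hz.1)
    have hz2 : (z : ℝ) ≤ v := by
      have : z ≤ ⌊v⌋₊ := by omega
      exact (Nat.cast_le.2 this).trans hvf
    have hz0 : (0 : ℝ) < z := by linarith
    rw [Finset.mem_filter]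
    refine ⟨?_, ?_, ?_⟩
    · unfold BB
      rw [Finset.mem_Ico]
      constructor
      · rw [Nat.ceil_le]
        linarith
      · have : z ≤ ⌊64 * X⌋₊ := by
          rw [Nat.le_floor_iff (by linarith)]
          linarith
        omega
    · have h1 : t ≤ (z : ℝ) ^ θ := by
        rw [← huθ]
        exact Real.rpow_le_rpow hu0.le hz1 hθ0.le
      rw [hθd, Real.rpow_natCast] at h1
      have h3 : (T : ℝ) < ((z ^ k + W : ℕ) : ℝ) := by
        push_cast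
        rw [ht] at h1
        linarith
      exact_mod_cast h3
    · have h1 : (z : ℝ) ^ θ ≤ T := by
        rw [← hvθ]
        exact Real.rpow_le_rpow hz0.le hz2 hθ0.le
      rw [hθd, Real.rpow_natCast] at h1
      exact_mod_cast h1
  have hcard := Finset.card_le_card hsub
  rw [Nat.card_Ico] at hcard
  have h9 : ((⌊v⌋₊ + 1 - Y : ℕ) : ℝ) = (⌊v⌋₊ : ℝ) + 1 - Y := by
    rw [Nat.cast_sub hYv]
    push_cast
    ring
  calc c0 / 2 * X ^ (1 - 1 / 4 : ℝ) ≤ (⌊v⌋₊ : ℝ) + 1 - Y := by linarith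
    _ = ((⌊v⌋₊ + 1 - Y : ℕ) : ℝ) := h9.symm
    _ ≤ _ := by exact_mod_cast hcard

/-- the sum of the weights -/
lemma W_sum {k : ℕ} (hk : 2 ≤ k) {l c : ℝ} (hl : 0 < l) (hc : 0 < c) (hd : DC c l) :
    ∃ X0 : ℝ, 4 ≤ X0 ∧ ∀ X : ℝ, X0 ≤ X → kap l / 4 * X ≤ ∑ z ∈ B2 l X, ww (l * (z : ℝ) ^ k) := by
  obtain ⟨σ, hσ, hσ1, X1, hX1, H⟩ := SE_self hk hc hd
  have hκ := kap_pos hl
  have hκ2 := kap_le hl
  obtain ⟨X2, hX2⟩ := eventually_atTop.1 ((tendsto_rpow_atTop hσ).eventually_ge_atTop (8 / kap l))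
  refine ⟨max (max X1 X2) (max 4 (8 / kap l)), (le_max_left _ _).trans (le_max_right _ _), ?_⟩
  intro X hX
  have g1 : X1 ≤ X := (le_max_left _ _).trans ((le_max_left _ _).trans hX)
  have g2 := hX2 X ((le_max_right _ _).trans ((le_max_left _ _).trans hX))
  have hX4 : 4 ≤ X := (le_max_left _ _).trans ((le_max_right _ _).trans hX)
  have g3 : 8 / kap l ≤ X := (le_max_right _ _).trans ((le_max_right _ _).trans hX)
  have hX0 : 0 < X := by linarith
  rw [div_le_iff₀ hκ] at g2 g3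
  set Y := ⌈kap l * X⌉₊ with hY
  set M := ⌊2 * kap l * X⌋₊ + 1 - Y with hM
  have hYl : kap l * X ≤ Y := Nat.le_ceil _
  have hYu : (Y : ℝ) < kap l * X + 1 := Nat.ceil_lt_add_one (by positivity)
  have hvf : (⌊2 * kap l * X⌋₊ : ℝ) ≤ 2 * kap l * X := Nat.floor_le (by positivity)
  have hvf' : 2 * kap l * X < (⌊2 * kap l * X⌋₊ : ℝ) + 1 := Nat.lt_floor_add_one _
  have hYv : Y ≤ ⌊2 * kap l * X⌋₊ + 1 := by
    have : (Y : ℝ) < ((⌊2 * kap l * X⌋₊ + 1 + 1 : ℕ) : ℝ) := by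
      push_cast
      nlinarith
    have : Y < ⌊2 * kap l * X⌋₊ + 1 + 1 := by exact_mod_cast this
    omega
  have hMr : (M : ℝ) = (⌊2 * kap l * X⌋₊ : ℝ) + 1 - Y := by
    rw [hM, Nat.cast_sub hYv]
    push_cast
    ring
  have hM65 : (M : ℝ) ≤ 65 * X := by
    rw [hMr]
    nlinarith
  have hMl : kap l * X - 1 ≤ M := by
    rw [hMr]
    linarith
  have e1 : ∑ z ∈ B2 l X, ww (l * (z : ℝ) ^ k) = ∑ n ∈ Finset.range M, ww (l * ((Y : ℝ) + n) ^ (k : ℝ)) := by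
    unfold B2
    rw [Finset.sum_Ico_eq_sum_range]
    refine Finset.sum_congr rfl fun n _ => ?_
    rw [Real.rpow_natCast]
    push_cast
    rfl
  have hS1 := H X g1 Y M hM65
  have hS2 : ‖SE (k : ℝ) Y M (-l)‖ ≤ X ^ (1 - σ) := by
    have : ‖SE (k : ℝ) Y M (-l)‖ = ‖SE (k : ℝ) Y M l‖ := by
      unfold SE
      have e3 : ∀ n : ℕ, -l * ((Y : ℝ) + n) ^ (k : ℝ) = -(l * ((Y : ℝ) + n) ^ (k : ℝ)) := fun n => by ring
      simp_rw [e3]
      rw [norm_neg_sum]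
    rw [this]
    exact hS1
  have e2 : ((∑ n ∈ Finset.range M, ww (l * ((Y : ℝ) + n) ^ (k : ℝ)) : ℝ) : ℂ) =
      (2 * M - SE (k : ℝ) Y M l - SE (k : ℝ) Y M (-l)) / 4 := by
    push_cast
    simp_rw [ww_ee]
    rw [← Finset.sum_div, Finset.sum_sub_distrib, Finset.sum_sub_distrib]
    unfold SE
    simp only [neg_mul, Finset.sum_const, Finset.card_range, nsmul_eq_mul]
    congr 3
    ring
  have e3 : (∑ n ∈ Finset.range M, ww (l * ((Y : ℝ) + n) ^ (k : ℝ))) =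
      (2 * (M : ℝ) - (SE (k : ℝ) Y M l).re - (SE (k : ℝ) Y M (-l)).re) / 4 := by
    have := congrArg Complex.re e2
    rw [Complex.ofReal_re] at this
    rw [this]
    have h4 : ((2 * (M : ℂ) - SE (k : ℝ) Y M l - SE (k : ℝ) Y M (-l)) / 4) =
        (((1 / 4 : ℝ)) : ℂ) * (2 * (M : ℂ) - SE (k : ℝ) Y M l - SE (k : ℝ) Y M (-l)) := by
      push_cast
      ring
    rw [h4, Complex.re_ofReal_mul]
    simp
    ring
  rw [e1, e3]
  have h1 := (Complex.re_le_norm (SE (k : ℝ) Y M l)).trans hS1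
  have h2 := (Complex.re_le_norm (SE (k : ℝ) Y M (-l))).trans hS2
  have hXσ : X ^ (1 - σ) * 8 ≤ kap l * X := by
    have h3 : X = X ^ (1 - σ) * X ^ σ := by
      rw [← Real.rpow_add hX0]
      simp
    have h4 : 0 < X ^ (1 - σ) := Real.rpow_pos_of_pos hX0 _
    calc X ^ (1 - σ) * 8 ≤ X ^ (1 - σ) * (X ^ σ * kap l) := mul_le_mul_of_nonneg_left g2 h4.le
      _ = kap l * (X ^ (1 - σ) * X ^ σ) := by ring
      _ = _ := by rw [← h3]
  linarith

/-- **the main term** -/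
theorem count_lowerL {k : ℕ} (hk : 2 ≤ k) {l c : ℝ} (hl : 0 < l) (hc : 0 < c) (hd : DC c l) :
    ∃ c' : ℝ, 0 < c' ∧ ∃ X0 : ℝ, 4 ≤ X0 ∧ ∀ X : ℝ, X0 ≤ X → ∀ W T : ℕ, X ^ ((k : ℝ) - 1 / 4) ≤ W →
      (4 * X) ^ k + X ^ k ≤ (T : ℝ) - W + 1 → (T : ℝ) ≤ (32 * X) ^ k →
      c' * X ^ (2 - 1 / 4 : ℝ) ≤ ∑ p ∈ BB X ×ˢ B2 l X,
        if (T < p.1 ^ k + fc k l p.2 + W ∧ p.1 ^ k + fc k l p.2 ≤ T) then ww (l * (p.2 : ℝ) ^ k) else 0 := by
  obtain ⟨c1, hc1, X1, hX1, H1⟩ := count_one hk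
  obtain ⟨X2, hX2, H2⟩ := W_sum hk hl hc hd
  have hκ := kap_pos hl
  refine ⟨c1 * (kap l / 4), by positivity, max X1 X2, hX1.trans (le_max_left _ _), ?_⟩
  intro X hX W T hW hT1 hT2
  have g1 : X1 ≤ X := (le_max_left _ _).trans hX
  have g2 := H2 X ((le_max_right _ _).trans hX)
  have hX4 : 4 ≤ X := hX1.trans g1
  have hX0 : 0 < X := by linarith
  rw [Finset.sum_product_right]
  have h1 : ∀ z ∈ B2 l X, ww (l * (z : ℝ) ^ k) * (c1 * X ^ (1 - 1 / 4 : ℝ)) ≤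
      ∑ x ∈ BB X, if (T < x ^ k + fc k l z + W ∧ x ^ k + fc k l z ≤ T) then ww (l * (z : ℝ) ^ k) else 0 := by
    intro z hz
    unfold B2 at hz
    rw [Finset.mem_Ico] at hz
    have hz2 : (z : ℝ) ≤ 2 * kap l * X := by
      have : z ≤ ⌊2 * kap l * X⌋₊ := by omega
      exact (Nat.cast_le.2 this).trans (Nat.floor_le (by positivity))
    have hfc : (fc k l z : ℝ) ≤ X ^ k := by
      refine (fc_err k hl.le z).1.trans ?_
      calc l * (z : ℝ) ^ k ≤ l * (2 * kap l * X) ^ k :=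
            mul_le_mul_of_nonneg_left (pow_le_pow_left₀ (by positivity) hz2 k) hl.le
        _ ≤ X ^ k := kap_mul hl (by omega) hX0.le
    have h4X : 0 < (4 * X) ^ k := by positivity
    have hW1 : (1 : ℝ) ≤ W := by
      refine le_trans ?_ hW
      apply Real.one_le_rpow (by linarith)
      have : (2 : ℝ) ≤ k := by exact_mod_cast hk
      linarith
    have hle : fc k l z ≤ T := by
      have : (fc k l z : ℝ) ≤ T := by linarith
      exact_mod_cast this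
    have hTr : ((T - fc k l z : ℕ) : ℝ) = T - fc k l z := Nat.cast_sub hle
    have h2 := H1 X g1 W (T - fc k l z) hW (by rw [hTr]; linarith) (by
      rw [hTr]
      have : (0 : ℝ) ≤ fc k l z := by positivity
      linarith)
    have h3 : ∑ x ∈ BB X, (if (T < x ^ k + fc k l z + W ∧ x ^ k + fc k l z ≤ T) then ww (l * (z : ℝ) ^ k) else 0) =
        (((BB X).filter fun x => T - fc k l z < x ^ k + W ∧ x ^ k ≤ T - fc k l z).card : ℝ) * ww (l * (z : ℝ) ^ k) := by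
      rw [← Finset.sum_filter, Finset.sum_const, nsmul_eq_mul]
      have h6 : (BB X).filter (fun x => T < x ^ k + fc k l z + W ∧ x ^ k + fc k l z ≤ T) =
          (BB X).filter fun x => T - fc k l z < x ^ k + W ∧ x ^ k ≤ T - fc k l z := by
        apply Finset.filter_congr
        intro x _
        constructor
        · rintro ⟨h4, h5⟩
          exact ⟨by omega, by omega⟩
        · rintro ⟨h4, h5⟩
          exact ⟨by omega, by omega⟩
      rw [h6]
    rw [h3, mul_comm]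
    exact mul_le_mul_of_nonneg_right h2 (ww_nonneg _)
  refine le_trans ?_ (Finset.sum_le_sum h1)
  rw [← Finset.sum_mul]
  have e2 : X ^ (2 - 1 / 4 : ℝ) = X * X ^ (1 - 1 / 4 : ℝ) := by
    rw [mul_comm, ← Real.rpow_add_one hX0.ne']
    norm_num
  rw [e2]
  have hP : 0 < X ^ (1 - 1 / 4 : ℝ) := Real.rpow_pos_of_pos hX0 _
  calc c1 * (kap l / 4) * (X * X ^ (1 - 1 / 4 : ℝ)) = (kap l / 4 * X) * (c1 * X ^ (1 - 1 / 4 : ℝ)) := by ring
    _ ≤ _ := mul_le_mul_of_nonneg_right g2 (by positivity)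

/-- the sum of the first `m` terms -/
noncomputable def fsL (k : ℕ) (l : ℝ) {m : ℕ} (x : Fin m → ℕ) : ℕ := ∑ i : Fin m, fc k (co l i) (x i)

lemma co_nonneg {l : ℝ} (hl : 0 < l) (i : ℕ) : 0 ≤ co l i := by
  unfold co
  split_ifs <;> linarith

/-- coincidences are near-coincidences -/
lemma JJ_leL {q X l : ℝ} {k m : ℕ} (hl : 0 < l) : JJ (AA q X m) (fsL k l) ≤ TL q X k m m l := by
  classical
  unfold JJ TL
  refine Finset.card_le_card_of_injOn (fun p i => (p.1 i, p.2 i)) ?_ ?_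
  · intro p hp
    rw [Finset.mem_coe, Finset.mem_filter, Finset.mem_product] at hp
    obtain ⟨⟨h1, h2⟩, h3⟩ := hp
    rw [Finset.mem_coe, Finset.mem_filter]
    refine ⟨?_, ?_⟩
    · rw [mem_PPs]
      intro i
      exact ⟨Fintype.mem_piFinset.1 h1 i, Fintype.mem_piFinset.1 h2 i⟩
    · unfold FL
      simp only
      have e1 : ∑ i : Fin m, co l i * (((p.1 i : ℕ) : ℝ) ^ k - ((p.2 i : ℕ) : ℝ) ^ k) =
          ∑ i : Fin m, ((co l i * ((p.1 i : ℕ) : ℝ) ^ k - fc k (co l i) (p.1 i)) -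
            (co l i * ((p.2 i : ℕ) : ℝ) ^ k - fc k (co l i) (p.2 i))) := by
        have h4 : ((fsL k l p.1 : ℕ) : ℝ) = fsL k l p.2 := by rw [h3]
        unfold fsL at h4
        push_cast at h4
        simp_rw [mul_sub]
        rw [Finset.sum_sub_distrib, Finset.sum_sub_distrib, Finset.sum_sub_distrib, Finset.sum_sub_distrib]
        linarith
      rw [e1]
      refine (Finset.abs_sum_le_sum_abs _ _).trans ?_
      calc ∑ i : Fin m, |(co l i * ((p.1 i : ℕ) : ℝ) ^ k - fc k (co l i) (p.1 i)) -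
            (co l i * ((p.2 i : ℕ) : ℝ) ^ k - fc k (co l i) (p.2 i))| ≤ ∑ _i : Fin m, (1 : ℝ) := by
            refine Finset.sum_le_sum fun i _ => ?_
            obtain ⟨a1, a2⟩ := fc_err k (co_nonneg hl i) (p.1 i)
            obtain ⟨b1, b2⟩ := fc_err k (co_nonneg hl i) (p.2 i)
            rw [abs_le]
            constructor <;> linarith
        _ = m := by simp
  · intro p _ p' _ h
    have h1 : ∀ i, (p.1 i, p.2 i) = (p'.1 i, p'.2 i) := fun i => congrFun h i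
    apply Prod.ext
    · funext i
      exact congrArg Prod.fst (h1 i)
    · funext i
      exact congrArg Prod.snd (h1 i)

/-- the size of the first sum -/
lemma fsL_le {q X l : ℝ} {k m : ℕ} (hq : 0 < q) (hq1 : q < 1) (hX : 1 ≤ X) (hl : 0 < l) {x : Fin m → ℕ} (hx : x ∈ AA q X m) :
    (fsL k l x : ℝ) ≤ (2 * X) ^ k + m * ((1 + l) * (2 * X ^ q) ^ k) := by
  unfold fsL
  push_cast
  have h0 : (0 : ℝ) ≤ (2 * X) ^ k := by positivity
  have h0' : (0 : ℝ) ≤ (1 + l) * (2 * X ^ q) ^ k := by positivity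
  have h1 : ∀ i : Fin m, (fc k (co l i) (x i) : ℝ) ≤ (if (i : ℕ) = 0 then (2 * X) ^ k else 0) + (1 + l) * (2 * X ^ q) ^ k := by
    intro i
    have h2 := (mem_SS hX).1 (Fintype.mem_piFinset.1 hx i)
    have h3 : ((x i : ℕ) : ℝ) ^ k ≤ (2 * lev q X i) ^ k := pow_le_pow_left₀ (by positivity) h2.2 k
    refine (fc_err k (co_nonneg hl i) (x i)).1.trans ?_
    by_cases hi : (i : ℕ) = 0
    · have hc1 : co l i = 1 := by
        unfold co
        rw [hi, if_pos (by norm_num)]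
      rw [if_pos hi, hc1, one_mul]
      have : lev q X (i : ℕ) = X := by rw [hi]; unfold lev; simp
      rw [this] at h3
      linarith
    · rw [if_neg hi, zero_add]
      have hc1 : co l i ≤ 1 + l := by
        unfold co
        split_ifs <;> linarith
      apply mul_le_mul hc1 _ (by positivity) (by linarith)
      refine h3.trans ?_
      apply pow_le_pow_left₀
      · have := lev_pos (q := q) hX (i : ℕ)
        linarith
      · have h4 : lev q X i ≤ lev q X 1 := lev_anti hq hq1 hX (by omega)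
        have h5 : lev q X 1 = X ^ q := by unfold lev; simp
        linarith
  refine (Finset.sum_le_sum fun i _ => h1 i).trans ?_
  rw [Finset.sum_add_distrib]
  have h2 : ∑ i : Fin m, (if (i : ℕ) = 0 then (2 * X) ^ k else (0 : ℝ)) ≤ (2 * X) ^ k := by
    cases m with
    | zero => simpa using h0
    | succ m =>
      rw [Fin.sum_univ_succ]
      simp
  have h3 : ∑ _i : Fin m, (1 + l) * (2 * X ^ q) ^ k = m * ((1 + l) * (2 * X ^ q) ^ k) := by simp
  rw [h3]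
  linarith

end Pool.Agent.J4H7.WL
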