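import Pool.Agent.J4H7.WL.F
import Pool.Agent.J4H7.WE.E1

set_option autoImplicit false

/-!
# Waring's problem with the coefficients `1` and `λ`, part G (helper7)

The main theorem.
-/

namespace Pool.Agent.J4H7.WL

open Real Set Filter Topology MeasureTheory
open Pool.Agent.J4H7.WE

/-- padding with ones -/
lemma pad {ι : Type} (S : Finset ι) (x : ι → ℕ) (hx : ∀ i ∈ S, 1 ≤ x i) (f : ℕ → ℕ) {u : ℕ} (hu : S.card ≤ u) :
    ∃ w : Fin u → ℕ, (∀ i, 1 ≤ w i) ∧ ∑ i, f (w i) = ∑ i ∈ S, f (x i) + (u - S.card) * f 1 := by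
  obtain ⟨t, rfl⟩ : ∃ t, u = S.card + t := ⟨u - S.card, by omega⟩
  set e := S.equivFin with he
  refine ⟨Fin.append (fun i => x (e.symm i)) (fun _ => 1), ?_, ?_⟩
  · intro i
    refine Fin.addCases (fun i => ?_) (fun i => ?_) i
    · rw [Fin.append_left]
      exact hx _ (e.symm i).2
    · rw [Fin.append_right]
  · rw [Fin.sum_univ_add]
    simp only [Fin.append_left, Fin.append_right, Finset.sum_const, Finset.card_univ, Fintype.card_fin, smul_eq_mul,
      Nat.add_sub_cancel_left]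
    congr 1
    have h1 : ∑ i : Fin S.card, f (x (e.symm i)) = ∑ i : S, f (x i) := Equiv.sum_comp e.symm (fun i : S => f (x i))
    rw [h1]
    exact Finset.sum_coe_sort S (fun i => f (x i))

/-- the number of even levels -/
lemma even_count (m : ℕ) : 2 * (∑ i ∈ Finset.range m, if Even i then 1 else 0) ≤ m + 1 ∧
    2 * (∑ i ∈ Finset.range m, if Even i then 0 else 1) ≤ m := by
  have key : 2 * (∑ i ∈ Finset.range m, if Even i then 1 else 0) = m + (if Even m then 0 else 1) ∧
    2 * (∑ i ∈ Finset.range m, if Even i then 0 else 1) + (if Even m then 0 else 1) = m := by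
    induction m with
    | zero => simp
    | succ m ih =>
      rw [Finset.sum_range_succ, Finset.sum_range_succ]
      obtain ⟨h1, h2⟩ := ih
      by_cases h : Even m
      · have h' : ¬ Even (m + 1) := by rw [Nat.even_add_one]; simpa using h
        rw [if_pos h] at h1 h2
        rw [if_pos h, if_pos h, if_neg h']
        omega
      · have h' : Even (m + 1) := by rw [Nat.even_add_one]; exact h
        rw [if_neg h] at h1 h2
        rw [if_neg h, if_neg h, if_pos h']
        omega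
  obtain ⟨h1, h2⟩ := key
  constructor
  · rw [h1]
    split_ifs <;> omega
  · omega

/-- joining the variables -/
lemma joinL {k : ℕ} {l : ℝ} {m u v : ℕ} (hu : m + 2 ≤ u) (hv : m + 1 ≤ v) :
    ∃ r : ℕ, ∀ (x y : Fin m → ℕ) (z z' : ℕ), (∀ i, 1 ≤ x i) → (∀ i, 1 ≤ y i) → 1 ≤ z → 1 ≤ z' →
      ∃ (a : Fin u → ℕ) (b : Fin v → ℕ), (∀ i, 1 ≤ a i) ∧ (∀ i, 1 ≤ b i) ∧
        ∑ i, (a i) ^ k + ∑ i, fc k l (b i) = fsL k l x + fsL k l y + (z ^ k + fc k l z') + r := by
  classical
  obtain ⟨c1, c2⟩ := even_count m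
  set n1 : ℕ := 1 + 2 * (∑ i ∈ Finset.range m, if Even i then 1 else 0) with hn1
  set n2 : ℕ := 1 + 2 * (∑ i ∈ Finset.range m, if Even i then 0 else 1) with hn2
  refine ⟨(u - n1) * 1 ^ k + (v - n2) * fc k l 1, ?_⟩
  intro x y z z' hx hy hz hz'
  set S1 : Finset (Option (Fin m × Bool)) := Finset.univ.filter fun o => match o with
    | none => True
    | some p => Even (p.1 : ℕ) with hS1
  set S2 : Finset (Option (Fin m × Bool)) := Finset.univ.filter fun o => match o with
    | none => True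
    | some p => ¬ Even (p.1 : ℕ) with hS2
  -- sums over these sets
  have sum1 : ∀ F : Option (Fin m × Bool) → ℕ, ∑ o ∈ S1, F o =
      F none + ∑ i : Fin m, if Even (i : ℕ) then (F (some (i, true)) + F (some (i, false))) else 0 := by
    intro F
    rw [hS1, Finset.sum_filter, Fintype.sum_option, Fintype.sum_prod_type]
    simp only [if_true]
    congr 1
    refine Finset.sum_congr rfl fun i _ => ?_
    rw [Fintype.sum_bool]
    by_cases h : Even (i : ℕ)
    · simp only [h, if_true]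
    · simp only [h, if_false, add_zero]
  have sum2 : ∀ F : Option (Fin m × Bool) → ℕ, ∑ o ∈ S2, F o =
      F none + ∑ i : Fin m, if Even (i : ℕ) then 0 else (F (some (i, true)) + F (some (i, false))) := by
    intro F
    rw [hS2, Finset.sum_filter, Fintype.sum_option, Fintype.sum_prod_type]
    simp only [if_true]
    congr 1
    refine Finset.sum_congr rfl fun i _ => ?_
    rw [Fintype.sum_bool]
    by_cases h : Even (i : ℕ)
    · simp only [h, not_true_eq_false, if_false, if_true, add_zero]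
    · simp only [h, not_false_eq_true, if_true, if_false]
  have card1 : S1.card = n1 := by
    rw [Finset.card_eq_sum_ones, sum1, hn1, ← Fin.sum_univ_eq_sum_range (fun i => if Even i then 1 else 0) m, Finset.mul_sum]
    congr 1
    refine Finset.sum_congr rfl fun i _ => ?_
    split_ifs <;> rfl
  have card2 : S2.card = n2 := by
    rw [Finset.card_eq_sum_ones, sum2, hn2, ← Fin.sum_univ_eq_sum_range (fun i => if Even i then 0 else 1) m, Finset.mul_sum]
    congr 1
    refine Finset.sum_congr rfl fun i _ => ?_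
    split_ifs <;> rfl
  set X1 : Option (Fin m × Bool) → ℕ := fun o => match o with
    | none => z
    | some p => if p.2 then x p.1 else y p.1 with hX1
  set X2 : Option (Fin m × Bool) → ℕ := fun o => match o with
    | none => z'
    | some p => if p.2 then x p.1 else y p.1 with hX2
  obtain ⟨a, ha1, ha2⟩ := pad S1 X1 (fun o _ => by
    cases o with
    | none => exact hz
    | some p =>
      simp only [hX1]
      split_ifs
      · exact hx _
      · exact hy _) (fun t => t ^ k) (u := u) (by omega)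
  obtain ⟨b, hb1, hb2⟩ := pad S2 X2 (fun o _ => by
    cases o with
    | none => exact hz'
    | some p =>
      simp only [hX2]
      split_ifs
      · exact hx _
      · exact hy _) (fc k l) (u := v) (by omega)
  refine ⟨a, b, ha1, hb1, ?_⟩
  rw [ha2, hb2, card1, card2, sum1, sum2]
  simp only [hX1, hX2, if_true, Bool.false_eq_true, if_false]
  have e1 : fsL k l x + fsL k l y = (∑ i : Fin m, if Even (i : ℕ) then (x i ^ k + y i ^ k) else 0) +
      ∑ i : Fin m, if Even (i : ℕ) then 0 else (fc k l (x i) + fc k l (y i)) := by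
    unfold fsL
    rw [← Finset.sum_add_distrib, ← Finset.sum_add_distrib]
    refine Finset.sum_congr rfl fun i _ => ?_
    unfold co
    by_cases h : Even (i : ℕ)
    · rw [if_pos h, if_pos h, if_pos h, fc_one, fc_one, add_zero]
    · rw [if_neg h, if_neg h, if_neg h, zero_add]
  rw [e1]
  ring

/-- **the main theorem** -/
theorem main (k : ℕ) (hk : 2 ≤ k) : ∀ᵐ l : ℝ, 0 < l → ∀ u v : ℕ, 2 * Real.log 2 * k + 3 ≤ u → 2 * Real.log 2 * k + 2 ≤ v →
    ∃ N₀ : ℕ, ∀ N : ℕ, N₀ ≤ N → ∃ (x : Fin u → ℕ) (y : Fin v → ℕ), (∀ i, 1 ≤ x i) ∧ (∀ j, 1 ≤ y j) ∧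
      ∑ i, (x i) ^ k + ∑ j, ⌊l * (y j : ℝ) ^ k⌋₊ = N := by
  have hk' : (2 : ℝ) ≤ k := by exact_mod_cast hk
  set m : ℕ := ⌈2 * Real.log 2 * k⌉₊ with hm
  have hlog : 0 < Real.log 2 := Real.log_pos (by norm_num)
  have hm1 : 2 * Real.log 2 * k ≤ m := Nat.le_ceil _
  have hm2 : (m : ℝ) < 2 * Real.log 2 * k + 1 := Nat.ceil_lt_add_one (by positivity)
  have hk1 : (1 : ℝ) < k := by linarith
  obtain ⟨q, hq0, hq1, hA, hB, hC⟩ := exists_q hk1 (levels hk1 hm1)
  have hq0' : (0 : ℝ) < q := by exact_mod_cast hq0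
  have hq1' : (q : ℝ) < 1 := by exact_mod_cast hq1
  filter_upwards [ae_DC, ae_meanL k m hk hq0' hq1' hA hB.le hC.le] with l hdc hmean hl u v hu hv
  obtain ⟨c, hc, hd⟩ := hdc
  have hu' : m + 2 ≤ u := by
    have : ((m + 2 : ℕ) : ℝ) < u := by
      push_cast
      linarith
    have : m + 2 < u := by exact_mod_cast this
    omega
  have hv' : m + 1 ≤ v := by
    have : ((m + 1 : ℕ) : ℝ) < v := by
      push_cast
      linarith
    have : m + 1 < v := by exact_mod_cast this
    omega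
  obtain ⟨N1, hN1⟩ := eventually_atTop.1 (repr_allL hk hl hc hd hq0' hq1' (hmean hl))
  obtain ⟨r, hr⟩ := joinL (k := k) (l := l) hu' hv'
  refine ⟨N1 + r, fun N hN => ?_⟩
  obtain ⟨x, y, z, z', hx, hy, hz, hz', h3⟩ := hN1 (N - r) (by omega)
  obtain ⟨a, b, ha, hb, h4⟩ := hr x y z z' hx hy hz hz'
  refine ⟨a, b, ha, hb, ?_⟩
  have h5 : ∑ i, (a i) ^ k + ∑ i, fc k l (b i) = N := by
    rw [h4, h3]
    omega
  exact h5

/-- all exponents simultaneously -/
theorem main_all : ∀ᵐ l : ℝ, 0 < l → ∀ k u v : ℕ, 2 ≤ k → 2 * Real.log 2 * k + 3 ≤ u → 2 * Real.log 2 * k + 2 ≤ v →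
    ∃ N₀ : ℕ, ∀ N : ℕ, N₀ ≤ N → ∃ (x : Fin u → ℕ) (y : Fin v → ℕ), (∀ i, 1 ≤ x i) ∧ (∀ j, 1 ≤ y j) ∧
      ∑ i, (x i) ^ k + ∑ j, ⌊l * (y j : ℝ) ^ k⌋₊ = N := by
  have h : ∀ᵐ l : ℝ, ∀ k : ℕ, 2 ≤ k → 0 < l → ∀ u v : ℕ, 2 * Real.log 2 * k + 3 ≤ u → 2 * Real.log 2 * k + 2 ≤ v →
      ∃ N₀ : ℕ, ∀ N : ℕ, N₀ ≤ N → ∃ (x : Fin u → ℕ) (y : Fin v → ℕ), (∀ i, 1 ≤ x i) ∧ (∀ j, 1 ≤ y j) ∧
        ∑ i, (x i) ^ k + ∑ j, ⌊l * (y j : ℝ) ^ k⌋₊ = N := by
    rw [ae_all_iff]
    intro k
    by_cases hk : 2 ≤ k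
    · filter_upwards [main k hk] with l hl _
      exact hl
    · exact Eventually.of_forall fun l hk' => absurd hk' hk
  filter_upwards [h] with l hl hl0 k u v hk hu hv
  exact hl k hk hl0 u v hu hv

end Pool.Agent.J4H7.WL
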